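import Pool.Agent.W_448co_h5.PartC
import Pool.Agent.W_448win_h16.ClD
import Pool.Agent.W_448win_h16.RkC
import Pool.Agent.W_448win_h16.CoreB

/-! The window calculus on a part: weighted sums over the subsets of the sites of the part, and the
core theorem for a part with some far elements deleted. -/

namespace Pool.Agent.GaussPoset.Win

set_option linter.unusedSectionVars false

open Finset

universe u

variable {P : Type u} [Fintype P] [PartialOrder P] [DecidableEq P] {r i : ℕ}

/-- weighted sum over the subsets of `V` -/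
noncomputable def IV (V : Finset P) (f : Finset P → A) : A := ∑ S ∈ V.powerset, xx ^ S.card * f S

lemma IV_congr {V : Finset P} {f g : Finset P → A} (h : ∀ S, S ⊆ V → f S = g S) :
    IV V f = IV V g := by
  unfold IV
  refine Finset.sum_congr rfl fun S hS => ?_
  rw [h S (mem_powerset.1 hS)]

lemma IV_mul (V : Finset P) (a : A) (f : Finset P → A) :
    IV V (fun S => a * f S) = a * IV V f := by
  unfold IV
  rw [Finset.mul_sum]
  exact Finset.sum_congr rfl fun S _ => by ring

lemma IV_sum {ι : Type*} (V : Finset P) (s : Finset ι) (f : ι → Finset P → A) :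
    IV V (fun S => ∑ a ∈ s, f a S) = ∑ a ∈ s, IV V (f a) := by
  unfold IV
  simp only [Finset.mul_sum]
  exact Finset.sum_comm

lemma IV_add (V : Finset P) (f g : Finset P → A) :
    IV V (fun S => f S + g S) = IV V f + IV V g := by
  unfold IV
  rw [← Finset.sum_add_distrib]
  exact Finset.sum_congr rfl fun S _ => by ring

/-- weighted sum of `chi B C` over the subsets of `V` -/
theorem IV_chi {V B C : Finset P} (hB : B ⊆ V) (hC : C ⊆ V) :
    IV V (chi B C) = if Disjoint B C then xx ^ B.card * dd ^ (V.card - B.card - C.card)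
      else 0 := by
  unfold IV chi
  split_ifs with hd
  · have h1 : ∑ S ∈ V.powerset, xx ^ S.card * (if B ⊆ S ∧ Disjoint C S then (1 : A) else 0) =
        ∑ S ∈ V.powerset.filter (fun S => B ⊆ S ∧ Disjoint C S), xx ^ S.card := by
      rw [Finset.sum_filter]
      refine Finset.sum_congr rfl fun S _ => ?_
      split_ifs <;> simp
    have h2 : ∑ S ∈ V.powerset.filter (fun S => B ⊆ S ∧ Disjoint C S), xx ^ S.card =
        ∑ T ∈ ((V \ B) \ C).powerset, xx ^ (B ∪ T).card := by
      symm
      refine Finset.sum_nbij' (fun T => B ∪ T) (fun S => S \ B) ?_ ?_ ?_ ?_ ?_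
      · intro T hT
        rw [mem_powerset] at hT
        rw [mem_filter, mem_powerset]
        refine ⟨union_subset hB (hT.trans (sdiff_subset.trans sdiff_subset)),
          subset_union_left, ?_⟩
        rw [disjoint_union_right]
        refine ⟨hd.symm, ?_⟩
        exact (disjoint_of_subset_left hT sdiff_disjoint).symm
      · intro S hS
        rw [mem_filter, mem_powerset] at hS
        rw [mem_powerset]
        intro x hx
        rw [mem_sdiff] at hx
        rw [mem_sdiff, mem_sdiff]
        exact ⟨⟨hS.1 hx.1, hx.2⟩, fun h => (disjoint_left.1 hS.2.2 h) hx.1⟩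
      · intro T hT
        rw [mem_powerset] at hT
        have h3 : Disjoint B T := by
          rw [disjoint_left]
          intro x hx hxT
          have := hT hxT
          rw [mem_sdiff, mem_sdiff] at this
          exact this.1.2 hx
        exact h3.sup_sdiff_cancel_left
      · intro S hS
        rw [mem_filter, mem_powerset] at hS
        exact union_sdiff_of_subset hS.2.1
      · intro T _
        rfl
    have h3 : ∀ T ∈ ((V \ B) \ C).powerset, xx ^ (B ∪ T).card = xx ^ B.card * xx ^ T.card := by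
      intro T hT
      rw [mem_powerset] at hT
      rw [card_union_of_disjoint, pow_add]
      rw [disjoint_left]
      intro x hx hxT
      have := hT hxT
      rw [mem_sdiff, mem_sdiff] at this
      exact this.1.2 hx
    have h4 : ((V \ B) \ C).card = V.card - B.card - C.card := by
      rw [card_sdiff_of_subset, card_sdiff_of_subset hB]
      intro x hx
      rw [mem_sdiff]
      exact ⟨hC hx, fun h => (disjoint_left.1 hd h) hx⟩
    rw [h1, h2, Finset.sum_congr rfl h3, ← Finset.mul_sum, ← h4, ← one_add_xx, add_comm 1 xx,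
      ← Finset.sum_pow_mul_eq_add_pow]
    simp
  · refine Finset.sum_eq_zero fun S _ => ?_
    rw [if_neg, mul_zero]
    rintro ⟨h1, h2⟩
    exact hd (disjoint_of_subset_left h1 h2.symm)

/-- functions with at most `k` deficits -/
theorem Rk_IV {V : Finset P} {k : ℕ} {f : Finset P → A} (hf : Rk V k f) :
    dd ^ (V.card - k) ∣ IV V f := by
  obtain ⟨c, h1, h2⟩ := hf
  have h3 : IV V f = ∑ T ∈ V.powerset, c T * IV V (chi T ∅) := by
    have h4 : IV V f = IV V (fun S => ∑ T ∈ V.powerset, c T * chi T ∅ S) := by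
      refine IV_congr fun S hS => ?_
      rw [h2 S hS]
      have h5 : ∑ T ∈ V.powerset, c T * chi T ∅ S =
          ∑ T ∈ V.powerset.filter (fun T => T ⊆ S), c T := by
        rw [Finset.sum_filter]
        refine Finset.sum_congr rfl fun T _ => ?_
        unfold chi
        simp only [Finset.disjoint_empty_left, and_true, mul_ite, mul_one, mul_zero]
      rw [h5]
      refine Finset.sum_congr ?_ fun _ _ => rfl
      ext T
      rw [mem_filter, mem_powerset, mem_powerset]
      exact ⟨fun h => ⟨h.trans hS, h⟩, fun h => h.2⟩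
    rw [h4, IV_sum]
    refine Finset.sum_congr rfl fun T _ => ?_
    rw [← IV_mul]
  rw [h3]
  refine Finset.dvd_sum fun T hT => ?_
  rw [mem_powerset] at hT
  rw [IV_chi hT (Finset.empty_subset _), if_pos (Finset.disjoint_empty_right _),
    Finset.card_empty, Nat.sub_zero]
  have h4 := card_le_card hT
  have h5 : dd ^ (T.card - k) * dd ^ (V.card - T.card) ∣ c T * (xx ^ T.card * dd ^ (V.card - T.card)) :=
    mul_dvd_mul (h1 T hT) (dvd_mul_left _ _)
  rw [← pow_add] at h5
  exact (pow_dvd_pow dd (by omega)).trans h5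

lemma Rk_sub {V W : Finset P} {k : ℕ} {f : Finset P → A} (h : W ⊆ V) (hf : Rk V k f) :
    Rk W k f := by
  obtain ⟨c, h1, h2⟩ := hf
  exact ⟨c, fun T hT => h1 T (hT.trans h), fun S hS => h2 S (hS.trans h)⟩

lemma st_sub (i : ℕ) (C : Finset P) : st i C ⊆ lv P i := by
  intro v hv
  rw [mem_lv]
  exact (mem_st.1 hv).2

/-- the term of a configuration of a part -/
theorem tC_IV (H : Gr P r) {C : Finset P} (hC : Part i C) {e : P → ℕ} (he : Spt C e) :
    tC i C e = IV (st i C) (Fe i e) := by
  have h1 : IV (st i C) (Fe i e) = cw i e * IV (st i C) (chi (AL i e) (AU i e)) := by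
    rw [← IV_mul]
    rfl
  rw [h1, IV_chi (AL_sub hC he) (AU_sub H hC he)]
  unfold tC
  split_ifs
  · rfl
  · rw [mul_zero]

open Classical in
/-- the rest of a core inside a part -/
noncomputable def RstC (i : ℕ) (C : Finset P) (psi : P → P) (e : P → ℕ) : Finset P :=
  (Rst i ∅ psi e).filter (fun x => x ∈ C)

lemma mem_RstC {C : Finset P} {psi : P → P} {e : P → ℕ} {x : P} :
    x ∈ RstC i C psi e ↔ x ∈ Rst i ∅ psi e ∧ x ∈ C := by
  classical
  unfold RstC
  rw [mem_filter]

/-- a part is closed under the partner map -/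
lemma psi_mem (H : Gr P r) {C : Finset P} (hC : Part (i + 1) C) {psi : P → P}
    (hM : Mat P i ∅ psi) {x : P} (hx : x ∈ dbL P i ∪ dbU P i) (hxC : x ∈ C) : psi x ∈ C := by
  rcases mem_union.1 hx with h | h
  · have h1 := hM.low x h (Finset.notMem_empty _)
    rw [mem_dbL] at h
    obtain ⟨v, hv⟩ : (uc x).Nonempty := by
      rw [← card_pos]
      omega
    have h2 := hC.up hxC (mem_uc.1 hv)
    refine hC.up h2 ?_
    rw [← mem_dc, h1.2]
    exact hv
  · have h1 := hM.upp x h (Finset.notMem_empty _)
    rw [mem_dbU] at h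
    obtain ⟨v, hv⟩ : (dc x).Nonempty := by
      rw [← card_pos]
      omega
    have h3 := lev_dc H hv
    have h2 := hC.dn hxC (by omega) (mem_dc.1 hv)
    refine hC.dn h2 (by omega) ?_
    rw [← mem_uc, h1.2]
    exact hv

section rest

variable {C : Finset P} {psi : P → P} {e : P → ℕ}

lemma RstC_near : RstC i C psi e ⊆ near P i := fun _ hx => (mem_Rst.mp (mem_RstC.1 hx).1).1

lemma RstC_Tch : ∀ x ∈ RstC i C psi e, x ∉ Tch i e :=
  fun _ hx => (mem_Rst.mp (mem_RstC.1 hx).1).2.2.1

lemma RstC_closed (H : Gr P r) (hC : Part (i + 1) C) (hM : Mat P i ∅ psi) :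
    ∀ x ∈ RstC i C psi e, x ∈ dbL P i ∪ dbU P i → psi x ∈ RstC i C psi e := by
  intro x hx hd
  rw [mem_RstC] at hx ⊢
  refine ⟨?_, psi_mem H hC hM hd hx.2⟩
  obtain ⟨h1, h2, h3, h4⟩ := mem_Rst.mp hx.1
  have h5 := hM.invol x hd h2
  refine mem_Rst.mpr ⟨?_, h5.2, fun h6 => h4 ⟨hd, h6⟩, ?_⟩
  · rcases Finset.mem_union.mp hd with h6 | h6
    · have h7 := (mem_dbU.mp (hM.low x h6 h2).1).1
      exact mem_near.mpr (Or.inr h7)
    · have h7 := (mem_dbL.mp (hM.upp x h6 h2).1).1
      exact mem_near.mpr (Or.inl h7)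
  · rintro ⟨-, h6⟩
    rw [h5.1] at h6
    exact h3 h6

/-- the product of the weights of the rest has no deficits -/
lemma rest_Rk (H : Gr P r) (hi : 1 ≤ i) (hi2 : i + 1 ≤ r) (hC : Part (i + 1) C)
    (hM : Mat P i ∅ psi) (e' : P → ℕ) (m : ℕ) :
    Rk (st i C) 0 (fun S => ∑ l ∈ (RstC i C psi e).piAntidiag m,
      ∏ x ∈ RstC i C psi e, wt i e' x (l x) S) :=
  Rk_sub (st_sub i C) (rest_prod H hi hi2 hM e' (RstC i C psi e) RstC_near
    (fun x hx => (mem_Rst.mp (mem_RstC.1 hx).1).2.1) (RstC_closed H hC hM) m)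

end rest

end Pool.Agent.GaussPoset.Win
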