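import Pool.Agent.W_448al_h63.LA

/-! The core theorem for a part with some far elements deleted. -/

namespace Pool.Agent.GaussPoset.Win

set_option linter.unusedSectionVars false

open Finset

universe u

variable {P : Type u} [Fintype P] [PartialOrder P] [DecidableEq P] {r i : ℕ}

lemma mem_piA {D : Finset P} {n : ℕ} {e : P → ℕ} :
    e ∈ D.piAntidiag n ↔ ∑ x, e x = n ∧ Spt D e := by
  rw [mem_piAntidiag]
  constructor
  · rintro ⟨h1, h2⟩
    have h3 : Spt D e := by
      intro x hx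
      by_contra h
      exact hx (h2 x h)
    refine ⟨?_, h3⟩
    rw [← h1]
    symm
    exact Finset.sum_subset (subset_univ _) fun x _ hx => h3 x hx
  · rintro ⟨h1, h2⟩
    constructor
    · rw [← h1]
      exact Finset.sum_subset (subset_univ _) fun x _ hx => h2 x hx
    · intro x hx
      by_contra h
      exact hx (h2 x h)

lemma spt_add_iff {D : Finset P} {e f : P → ℕ} : Spt D (e + f) ↔ Spt D e ∧ Spt D f := by
  constructor
  · intro h
    refine ⟨fun x hx => ?_, fun x hx => ?_⟩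
    · have := h x hx
      rw [Pi.add_apply] at this
      omega
    · have := h x hx
      rw [Pi.add_apply] at this
      omega
  · rintro ⟨h1, h2⟩ x hx
    rw [Pi.add_apply, h1 x hx, h2 x hx]

section main

variable {C D : Finset P} {psi : P → P}

/-- the group of one core -/
lemma group_eq (H : Gr P r) (hi2 : i + 1 ≤ r) (hC : Part (i + 1) C)
    (hDC : D ⊆ C) (hD : ∀ x ∈ C, x ∈ near P i → x ∈ D) {e0 : P → ℕ}
    (hc : IsCore i ∅ psi e0) (hs : Spt D e0) (m : ℕ) :
    ∑ l ∈ (Rst i ∅ psi e0).piAntidiag m, (open Classical in if Spt D (e0 + l) then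
      tC i C (e0 + l) else 0) =
    IV (st i C) (fun S => Fe i e0 S * ∑ l ∈ (RstC i C psi e0).piAntidiag m,
      ∏ x ∈ RstC i C psi e0, wt i e0 x (l x) S) := by
  classical
  have hC' : Part i C := ⟨fun h1 h2 => hC.up h1 h2, fun h1 h2 h3 => hC.dn h1 (by omega) h3⟩
  have h1 : ∑ l ∈ (Rst i ∅ psi e0).piAntidiag m, (if Spt D (e0 + l) then
      tC i C (e0 + l) else 0) = ∑ l ∈ (RstC i C psi e0).piAntidiag m, tC i C (e0 + l) := by
    rw [← Finset.sum_filter]
    refine Finset.sum_congr ?_ fun _ _ => rfl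
    ext l
    rw [mem_filter, mem_piA, mem_piA, spt_add_iff]
    constructor
    · rintro ⟨⟨h1, h2⟩, -, h3⟩
      refine ⟨h1, fun x hx => ?_⟩
      by_contra hne
      apply hx
      rw [mem_RstC]
      constructor
      · by_contra h4
        exact hne (h2 x h4)
      · apply hDC
        by_contra h4
        exact hne (h3 x h4)
    · rintro ⟨h1, h2⟩
      refine ⟨⟨h1, fun x hx => h2 x fun h3 => hx (mem_RstC.1 h3).1⟩, hs, fun x hx => ?_⟩
      apply h2
      intro h3
      exact hx (hD x (mem_RstC.1 h3).2 (RstC_near h3))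
  rw [h1]
  have h2 : ∀ l ∈ (RstC i C psi e0).piAntidiag m, tC i C (e0 + l) =
      IV (st i C) (fun S => Fe i e0 S * ∏ x ∈ RstC i C psi e0, wt i e0 x (l x) S) := by
    intro l hl
    rw [mem_piA] at hl
    have h3 : Spt C (e0 + l) := by
      rw [spt_add_iff]
      refine ⟨fun x hx => hs x fun h => hx (hDC h), fun x hx => hl.2 x fun h => ?_⟩
      exact hx (mem_RstC.1 h).2
    rw [tC_IV H hC' h3]
    refine IV_congr fun S _ => ?_
    exact fact_many H (by omega) (RstC i C psi e0) RstC_near RstC_Tch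
      (fun x hx => hc x (mem_RstC.1 hx).1) l hl.2 S
  rw [Finset.sum_congr rfl h2, ← IV_sum]
  refine IV_congr fun S _ => ?_
  rw [Finset.mul_sum]

/-- the group of a core without deficits is divisible by the full power -/
lemma group_dvd (H : Gr P r) (hi : 1 ≤ i) (hi2 : i + 1 ≤ r) (hC : Part (i + 1) C)
    (hDC : D ⊆ C) (hD : ∀ x ∈ C, x ∈ near P i → x ∈ D) (hM : Mat P i ∅ psi) {e0 : P → ℕ}
    (hc : IsCore i ∅ psi e0) (hs : Spt D e0) (h0 : Rk (st i C) 0 (Fe i e0)) (m : ℕ) :
    dd ^ (st i C).card ∣ ∑ l ∈ (Rst i ∅ psi e0).piAntidiag m,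
      (open Classical in if Spt D (e0 + l) then tC i C (e0 + l) else 0) := by
  rw [group_eq H hi2 hC hDC hD hc hs m]
  have h1 := Rk_IV (Rk_mul h0 (rest_Rk (e := e0) H hi hi2 hC hM e0 m))
  simpa using h1

open Classical in
/-- CORE THEOREM FOR A PART: if all cores of energy `< n` supported on `D` have no deficits, then modulo
`dd ^ b` only the cores of energy `n` with deficits count. -/
theorem core_part (H : Gr P r) (hi : 1 ≤ i) (hi2 : i + 1 ≤ r) (hC : Part (i + 1) C)
    (hDC : D ⊆ C) (hD : ∀ x ∈ C, x ∈ near P i → x ∈ D) (hM : Mat P i ∅ psi) (n : ℕ)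
    (hk : ∀ e : P → ℕ, IsCore i ∅ psi e → Spt D e → ∑ x, e x < n → Rk (st i C) 0 (Fe i e)) :
    dd ^ (st i C).card ∣ ∑ e ∈ D.piAntidiag n, tC i C e -
      ∑ e ∈ (D.piAntidiag n).filter (fun e => IsCore i ∅ psi e ∧ ¬ Rk (st i C) 0 (Fe i e)),
        tC i C e := by
  have e1 : ∑ e ∈ D.piAntidiag n, tC i C e =
      ∑ e ∈ (univ : Finset P).piAntidiag n, if Spt D e then tC i C e else 0 := by
    rw [← Finset.sum_filter]
    refine Finset.sum_congr ?_ fun _ _ => rfl
    ext e
    rw [mem_filter, mem_piA, mem_piA]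
    constructor
    · rintro ⟨h1, h2⟩
      exact ⟨⟨h1, fun x hx => absurd (mem_univ x) hx⟩, h2⟩
    · rintro ⟨⟨h1, -⟩, h2⟩
      exact ⟨h1, h2⟩
  rw [e1, core_group H _ i ∅ psi n, Finset.sum_range_succ, Nat.sub_self]
  have h1 : dd ^ (st i C).card ∣ ∑ q ∈ range n,
      ∑ e0 ∈ ((univ : Finset P).piAntidiag q).filter (IsCore i ∅ psi),
        ∑ l ∈ (Rst i ∅ psi e0).piAntidiag (n - q),
          if Spt D (e0 + l) then tC i C (e0 + l) else 0 := by
    refine Finset.dvd_sum fun q hq => Finset.dvd_sum fun e0 he => ?_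
    rw [Finset.mem_range] at hq
    rw [Finset.mem_filter, mem_piA] at he
    by_cases hs : Spt D e0
    · exact group_dvd H hi hi2 hC hDC hD hM he.2 hs (hk e0 he.2 hs (by omega)) (n - q)
    · refine Finset.dvd_sum fun l _ => ?_
      rw [if_neg (fun h => hs (spt_add_iff.1 h).1)]
      exact dvd_zero _
  rw [add_sub_assoc]
  refine dvd_add h1 ?_
  have h2 : ∑ e0 ∈ ((univ : Finset P).piAntidiag n).filter (IsCore i ∅ psi),
      ∑ l ∈ (Rst i ∅ psi e0).piAntidiag 0,
        (if Spt D (e0 + l) then tC i C (e0 + l) else 0) =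
      ∑ e ∈ (D.piAntidiag n).filter (IsCore i ∅ psi), tC i C e := by
    have h3 : ∀ e0 ∈ ((univ : Finset P).piAntidiag n).filter (IsCore i ∅ psi),
        ∑ l ∈ (Rst i ∅ psi e0).piAntidiag 0,
          (if Spt D (e0 + l) then tC i C (e0 + l) else 0) =
        if Spt D e0 then tC i C e0 else 0 := by
      intro e0 _
      rw [Finset.piAntidiag_zero, Finset.sum_singleton, add_zero]
    rw [Finset.sum_congr rfl h3, ← Finset.sum_filter, Finset.filter_filter]
    refine Finset.sum_congr ?_ fun _ _ => rfl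
    ext e
    rw [mem_filter, mem_filter, mem_piA, mem_piA]
    constructor
    · rintro ⟨⟨h1, -⟩, h2, h3⟩
      exact ⟨⟨h1, h3⟩, h2⟩
    · rintro ⟨⟨h1, h3⟩, h2⟩
      exact ⟨⟨h1, fun x hx => absurd (mem_univ x) hx⟩, h2, h3⟩
  rw [h2, ← Finset.sum_filter_add_sum_filter_not ((D.piAntidiag n).filter (IsCore i ∅ psi))
    (fun e => ¬ Rk (st i C) 0 (Fe i e)), Finset.filter_filter, Finset.filter_filter,
    add_sub_cancel_left]
  refine Finset.dvd_sum fun e he => ?_
  rw [mem_filter, mem_piA, not_not] at he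
  have hC' : Part i C := ⟨fun h1 h2 => hC.up h1 h2, fun h1 h2 h3 => hC.dn h1 (by omega) h3⟩
  rw [tC_IV H hC' (fun x hx => he.1.2 x fun h => hx (hDC h))]
  have := Rk_IV he.2.2
  simpa using this

end main

end Pool.Agent.GaussPoset.Win
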