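import Pool.Agent.W_448al_h63.LB

/-! Cores of energy at most three which do not excite `PD` and `PU`. -/

namespace Pool.Agent.GaussPoset.Win

set_option linter.unusedSectionVars false

open Finset OrderDual

universe u

variable {P : Type u} [Fintype P] [PartialOrder P] [DecidableEq P] {r : ℕ}

theorem cl3_low (H : Gr P r) {i : ℕ} (hi : 1 ≤ i) (hi2 : i + 1 ≤ r) {psi : P → P}
    (hM : Mat P i ∅ psi) (h3 : ∀ z : P, lev z = i + 2 → up i z ≤ 3)
    {e : P → ℕ} (hPD : ∀ z ∈ PD P i, e z = 0) (hc : IsCore i ∅ psi e) (hn : ∑ x, e x ≤ 3)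
    (h2 : TU i e = ∅) :
    Rk (lv P i) 0 (Fe i e) ∨ (∃ z, lev z = i + 2 ∧ up i z = 3 ∧ e = cl z) := by
  classical
  have hir : i ≤ r := by omega
  by_cases hadm : AdmL i e ∧ AdmU i e
  swap
  · exact Or.inl (Rk_of_not_adm hadm 0)
  obtain ⟨hA, hB⟩ := hadm
  have hE := energy_bound H hir hA hB
  have hT := card_TL_le H (i := i) e
  rcases Nat.lt_or_ge 2 (TL i e).card with h | h
  · omega
  interval_cases hcard : (TL i e).card
  · exact Or.inl (core_none H hi hi2 hc (Finset.card_eq_zero.1 hcard) h2)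
  · obtain ⟨w, hw⟩ := Finset.card_eq_one.1 hcard
    left
    refine (core_one H hi hi2 hM hc hw h2).2 ?_
    have hwT : w ∈ TL i e := by rw [hw]; exact Finset.mem_singleton_self w
    obtain ⟨hlw, z, hzw, hez⟩ := clb_mem_TL.1 hwT
    have hlz : lev z = i + 2 := by
      have := lev_uc H (mem_uc.2 hzw)
      omega
    have hucz : uc z = {w} := by
      apply Finset.eq_singleton_iff_unique_mem.2
      refine ⟨mem_uc.2 hzw, fun y hy => ?_⟩
      have hly := lev_uc H hy
      have hyT : y ∈ TL i e := clb_mem_TL.2 ⟨by omega, z, mem_uc.1 hy, hez⟩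
      rw [hw, Finset.mem_singleton] at hyT
      exact hyT
    have hw2 : (uc w).card ≠ 2 := by
      intro hcon
      have hzPD : z ∈ PD P i := by
        unfold PD
        rw [Finset.mem_filter]
        exact ⟨Finset.mem_univ _, hlz, by rw [hucz, Finset.card_singleton], w, hzw, hcon⟩
      have := hPD z hzPD
      omega
    have hw3 := uc_card_le H w
    have hw4 : 0 < (uc w).card := Finset.card_pos.2 (uc_nonempty H (by omega))
    omega
  · obtain ⟨z, hz, hz2, he⟩ := clb_two H hir hA hB hcard hn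
    have h5 := h3 z hz
    by_cases h4 : up i z = 3
    · exact Or.inr ⟨z, hz, h4, he⟩
    · left
      rw [he]
      apply clb_Rk H hir hz
      rw [card_sts]
      omega

theorem cl3_upp (H : Gr P r) {i : ℕ} (hi : 1 ≤ i) (hi2 : i + 1 ≤ r) {psi : P → P}
    (hM : Mat P i ∅ psi) (h3 : ∀ x : P, lev x + 2 = i → dn i x ≤ 3)
    {e : P → ℕ} (hPU : ∀ x ∈ PU P i, e x = 0) (hc : IsCore i ∅ psi e) (hn : ∑ x, e x ≤ 3)
    (h2 : TL i e = ∅) :
    Rk (lv P i) 0 (Fe i e) ∨ (∃ x, lev x + 2 = i ∧ dn i x = 3 ∧ e = cu x) := by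
  have hir : i ≤ r := by omega
  have hn' : ∑ x, eo e x ≤ 3 := by rw [ClD_sum]; exact hn
  have hPD : ∀ z ∈ PD Pᵒᵈ (r - i), eo e z = 0 := by
    intro z hz
    rw [(PD_od H hir).1, Finset.mem_map] at hz
    obtain ⟨x, hx, rfl⟩ := hz
    exact hPU x hx
  rcases cl3_low H.dual (i := r - i) (by omega) (by omega) (ClD_mat H hir hM)
    (ClD_up H hir h3) hPD (ClD_core H hir hc) hn' (ClD_TU H hir h2) with h | ⟨z, hz, hz2, hz3⟩
  · exact Or.inl ((Rk_od H hir 0 e).1 h)
  · refine Or.inr ⟨ofDual z, ClD_lev H hir (x := ofDual z) hz, ?_, ?_⟩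
    · rw [← up_od H hir]
      exact hz2
    · apply ClD_inj
      rw [cu_od]
      exact hz3

theorem cl3 (H : Gr P r) {i : ℕ} (hi : 1 ≤ i) (hi2 : i + 1 ≤ r) {psi : P → P}
    (hM : Mat P i ∅ psi) (h3 : ∀ z : P, lev z = i + 2 → up i z ≤ 3)
    (h3' : ∀ x : P, lev x + 2 = i → dn i x ≤ 3)
    {e : P → ℕ} (hPD : ∀ z ∈ PD P i, e z = 0) (hPU : ∀ x ∈ PU P i, e x = 0)
    (hc : IsCore i ∅ psi e) (hn : ∑ x, e x ≤ 3) :
    Rk (lv P i) 0 (Fe i e) ∨ (∃ z, lev z = i + 2 ∧ up i z = 3 ∧ e = cl z) ∨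
      (∃ x, lev x + 2 = i ∧ dn i x = 3 ∧ e = cu x) := by
  have hir : i ≤ r := by omega
  by_cases hadm : AdmL i e ∧ AdmU i e
  swap
  · exact Or.inl (Rk_of_not_adm hadm 0)
  obtain ⟨hA, hB⟩ := hadm
  have hE := energy_bound H hir hA hB
  have b1 := card_TL_le H (i := i) e
  have b2 := card_TU_le H (i := i) e
  by_cases hU : TU i e = ∅
  · rcases cl3_low H hi hi2 hM h3 hPD hc hn hU with h | h
    · exact Or.inl h
    · exact Or.inr (Or.inl h)
  · by_cases hL : TL i e = ∅
    · rcases cl3_upp H hi hi2 hM h3' hPU hc hn hL with h | h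
      · exact Or.inl h
      · exact Or.inr (Or.inr h)
    · exfalso
      have h4 : 0 < (TU i e).card := by
        rw [card_pos]
        exact Finset.nonempty_iff_ne_empty.2 hU
      have h5 : 0 < (TL i e).card := by
        rw [card_pos]
        exact Finset.nonempty_iff_ne_empty.2 hL
      omega

/-- three sites at most above an element of level `i + 2` -/
lemma up_le_three (H : Gr P r) {i : ℕ} (hg : Good P (i + 1)) {z : P} (hz : lev z = i + 2) :
    up i z ≤ 3 := by
  classical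
  rw [← card_sts]
  have h1 : sts i z = (uc z).biUnion uc := by
    ext v
    rw [mem_sts_iff H hz, mem_biUnion]
  rw [h1]
  have h2 := uc_card_le H z
  rcases Nat.lt_or_ge (uc z).card 2 with h3 | h3
  · have h4 : ((uc z).biUnion uc).card ≤ ∑ w ∈ uc z, (uc w).card := Finset.card_biUnion_le
    have h5 : ∑ w ∈ uc z, (uc w).card ≤ ∑ _w ∈ uc z, 2 :=
      Finset.sum_le_sum (fun w _ => uc_card_le H w)
    rw [Finset.sum_const, smul_eq_mul] at h5
    omega
  · obtain ⟨y, y', hne, huc⟩ := Finset.card_eq_two.1 (show (uc z).card = 2 by omega)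
    have hy : y ∈ uc z := by rw [huc]; simp
    have hy' : y' ∈ uc z := by rw [huc]; simp
    have l1 := lev_uc H hy
    have l2 := lev_uc H hy'
    have h4 := hg y y' (by omega) (by omega) hne
    have h5 : 0 < dcv y y' := by
      unfold dcv
      rw [card_pos]
      exact ⟨z, by simp [mem_uc.1 hy, mem_uc.1 hy']⟩
    rw [← h4] at h5
    unfold ucv at h5
    rw [card_pos] at h5
    obtain ⟨x, hx⟩ := h5
    rw [mem_filter] at hx
    rw [huc, Finset.biUnion_insert, Finset.singleton_biUnion]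
    have h6 := Finset.card_union_add_card_inter (uc y) (uc y')
    have h7 : 0 < (uc y ∩ uc y').card := by
      rw [card_pos]
      exact ⟨x, mem_inter.2 ⟨mem_uc.2 hx.2.1, mem_uc.2 hx.2.2⟩⟩
    have h8 := uc_card_le H y
    have h9 := uc_card_le H y'
    omega

/-- three sites at most below an element of level `i - 2` -/
lemma LC_dn_le_three (H : Gr P r) {i : ℕ} (hg : ∀ m, m + 1 = i → Good P m) {x : P}
    (hx : lev x + 2 = i) : dn i x ≤ 3 := by
  classical
  rw [← card_stD]
  have h1 : stD i x = (dc x).biUnion dc := by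
    ext v
    rw [mem_stD_iff H hx, mem_biUnion]
  rw [h1]
  have h2 := dc_card_le H x
  rcases Nat.lt_or_ge (dc x).card 2 with h3 | h3
  · have h4 : ((dc x).biUnion dc).card ≤ ∑ w ∈ dc x, (dc w).card := Finset.card_biUnion_le
    have h5 : ∑ w ∈ dc x, (dc w).card ≤ ∑ _w ∈ dc x, 2 :=
      Finset.sum_le_sum (fun w _ => dc_card_le H w)
    rw [Finset.sum_const, smul_eq_mul] at h5
    omega
  · obtain ⟨y, y', hne, hdc⟩ := Finset.card_eq_two.1 (show (dc x).card = 2 by omega)
    have hy : y ∈ dc x := by rw [hdc]; simp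
    have hy' : y' ∈ dc x := by rw [hdc]; simp
    have l1 := lev_dc H hy
    have l2 := lev_dc H hy'
    have h4 := hg (lev y) (by omega) y y' rfl (by omega) hne
    have h5 : 0 < ucv y y' := by
      unfold ucv
      rw [card_pos]
      exact ⟨x, by simp [mem_dc.1 hy, mem_dc.1 hy']⟩
    rw [h4] at h5
    unfold dcv at h5
    rw [card_pos] at h5
    obtain ⟨w, hw⟩ := h5
    rw [mem_filter] at hw
    rw [hdc, Finset.biUnion_insert, Finset.singleton_biUnion]
    have h6 := Finset.card_union_add_card_inter (dc y) (dc y')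
    have h7 : 0 < (dc y ∩ dc y').card := by
      rw [card_pos]
      exact ⟨w, mem_inter.2 ⟨mem_dc.2 hw.2.1, mem_dc.2 hw.2.2⟩⟩
    have h8 := dc_card_le H y
    have h9 := dc_card_le H y'
    omega

end Pool.Agent.GaussPoset.Win
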