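import Pool.Agent.W_448al_h63.LC

/-! Explicit data of small configurations on one side of the window, and their mirror images. -/

namespace Pool.Agent.GaussPoset.Win

set_option linter.unusedSectionVars false

open Finset OrderDual

universe u

variable {P : Type u} [Fintype P] [PartialOrder P] [DecidableEq P] {r i : ℕ}

/-- data of the lower part of a configuration -/
structure LDat (i : ℕ) (e : P → ℕ) (a p : ℕ) (B : Finset P) : Prop where
  adm : AdmL i e
  a_eq : aL i e = a
  p_eq : pL i e = p
  al_eq : AL i e = B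

/-- data of the upper part of a configuration -/
structure UDat (i : ℕ) (e : P → ℕ) (a p : ℕ) (B : Finset P) : Prop where
  adm : AdmU i e
  a_eq : aU i e = a
  p_eq : pU i e = p
  au_eq : AU i e = B

lemma LDat.to_UDat (H : Gr P r) (hi : i ≤ r) {e : P → ℕ} {a p : ℕ} {B' : Finset Pᵒᵈ}
    {B : Finset P} (h : LDat (r - i) (eo e) a p B') (hB : ∀ v, v ∈ B ↔ toDual v ∈ B') :
    UDat i e a p B := by
  obtain ⟨n1, n2, n3, n4, n5, n6, n7⟩ := nums_od H hi e
  refine ⟨(AdmL_od H hi e).1 h.adm, by rw [← n1]; exact h.a_eq, by rw [← n3]; exact h.p_eq, ?_⟩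
  ext v
  rw [← mem_AL_od H hi, h.al_eq, hB]

section vals

variable {e : P → ℕ} {a p : ℕ} {B : Finset P}

lemma LDat.Fe (H : Gr P r) (hi : i ≤ r) (h : LDat i e a p B) (h0 : ∀ z, lev z < i → e z = 0)
    (S : Finset P) : Fe i e S = xx ^ a * dd ^ p * chi B ∅ S := by
  obtain ⟨u1, u2, u3, u4⟩ := upp_none H hi h0
  unfold Win.Fe cw
  rw [if_pos ⟨h.adm, u1⟩, h.a_eq, h.p_eq, h.al_eq, u2, u3, u4]
  simp

lemma UDat.Fe (H : Gr P r) (h : UDat i e a p B) (h0 : ∀ z, i < lev z → e z = 0)
    (S : Finset P) : Fe i e S = xi ^ (a + p) * dd ^ p * chi ∅ B S := by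
  obtain ⟨u1, u2, u3, u4⟩ := low_none H h0
  unfold Win.Fe cw
  rw [if_pos ⟨u1, h.adm⟩, h.a_eq, h.p_eq, h.au_eq, u2, u3, u4]
  simp

lemma LDat.tC (H : Gr P r) (hi : i ≤ r) (h : LDat i e a p B) (h0 : ∀ z, lev z < i → e z = 0)
    (C : Finset P) : tC i C e = xx ^ (a + B.card) * dd ^ (p + ((st i C).card - B.card)) := by
  obtain ⟨u1, u2, u3, u4⟩ := upp_none H hi h0
  unfold Win.tC cw
  rw [if_pos (show Disjoint (AL i e) (AU i e) by rw [u2]; exact disjoint_empty_right _),
    if_pos ⟨h.adm, u1⟩, h.a_eq, h.p_eq, h.al_eq, u2, u3, u4]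
  simp only [Finset.card_empty, Nat.sub_zero, add_zero, pow_zero, mul_one]
  rw [pow_add, pow_add]
  ring

lemma UDat.tC (H : Gr P r) (h : UDat i e a p B) (h0 : ∀ z, i < lev z → e z = 0)
    (C : Finset P) : tC i C e = xi ^ (a + p) * dd ^ (p + ((st i C).card - B.card)) := by
  obtain ⟨u1, u2, u3, u4⟩ := low_none H h0
  unfold Win.tC cw
  rw [if_pos (show Disjoint (AL i e) (AU i e) by rw [u2]; exact disjoint_empty_left _),
    if_pos ⟨u1, h.adm⟩, h.a_eq, h.p_eq, h.au_eq, u2, u3, u4]
  simp only [Finset.card_empty, Nat.sub_zero, pow_zero, one_mul, zero_add]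
  rw [pow_add dd]
  ring

end vals

/-- a chain of single elements below `y` with decreasing labels -/
lemma chain_dat (H : Gr P r) {e : P → ℕ} {y z : P} (hy : lev y = i + 1) (hz : uc z = {y})
    (h1 : ∀ x, i < lev x → e x ≠ 0 → x = y ∨ x = z ∨ (uc x = {z} ∧ e x ≤ e z))
    (h2 : e z ≤ e y) :
    LDat i e 0 (if ∀ v ∈ uc y, e v < e y then 1 else 0) ((uc y).filter (fun v => e v < e y)) := by
  classical
  have hzy : z ⋖ y := by rw [← mem_uc, hz]; exact mem_singleton_self y
  have hlz : lev z = i + 2 := by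
    have := lev_uc H (mem_uc.2 hzy)
    omega
  have hFD : ∀ x, i < lev x → ¬ FD e x := by
    rintro x hx ⟨z', hz', hlt⟩
    have hl := lev_uc H (mem_uc.2 hz')
    rcases h1 z' (by omega) (by omega) with h | h | ⟨h, h'⟩
    · rw [h] at hl
      omega
    · rw [h] at hz' hlt
      have h3 : x ∈ uc z := mem_uc.2 hz'
      rw [hz, mem_singleton] at h3
      rw [h3] at hlt
      omega
    · have h3 : x ∈ uc z' := mem_uc.2 hz'
      rw [h, mem_singleton] at h3
      rw [h3] at hlt
      omega
  have hGU : ∀ x, i < lev x → x ≠ y → GU e x := by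
    intro x hx hxy
    by_cases h0 : e x = 0
    · exact ExpC_GU H (by omega) h0
    · rcases h1 x hx h0 with h | h | ⟨h, h'⟩
      · exact absurd h hxy
      · rw [h]
        exact ⟨y, hzy, h2⟩
      · refine ⟨z, ?_, h'⟩
        rw [← mem_uc, h]
        exact mem_singleton_self z
  refine ⟨fun x hx h => hFD x hx h.1, ?_, ?_, ?_⟩
  · unfold aL
    rw [Finset.card_eq_zero, Finset.filter_eq_empty_iff]
    rintro x - ⟨hx, h⟩
    exact hFD x hx h
  · have e1 : (univ.filter (fun x : P => i < lev x ∧ ¬ FD e x ∧ ¬ GU e x)) =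
        if ∀ v ∈ uc y, e v < e y then {y} else ∅ := by
      ext x
      rw [mem_filter]
      by_cases hxy : x = y
      · subst hxy
        have hG : GU e x ↔ ¬ ∀ v ∈ uc x, e v < e x := by
          constructor
          · rintro ⟨v, hv, hle⟩ h
            have := h v (mem_uc.2 hv)
            omega
          · intro h
            push Not at h
            obtain ⟨v, hv, hle⟩ := h
            exact ⟨v, mem_uc.1 hv, hle⟩
        split_ifs with h
        · simp only [mem_univ, true_and, mem_singleton, iff_true]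
          exact ⟨by omega, hFD x (by omega), fun h3 => hG.1 h3 h⟩
        · simp only [mem_univ, true_and, notMem_empty, iff_false]
          rintro ⟨-, -, h3⟩
          exact h3 (hG.2 h)
      · split_ifs
        · simp only [mem_univ, true_and, mem_singleton, hxy, iff_false]
          rintro ⟨h3, -, h4⟩
          exact h4 (hGU x h3 hxy)
        · simp only [mem_univ, true_and, notMem_empty, iff_false]
          rintro ⟨h3, -, h4⟩
          exact h4 (hGU x h3 hxy)
    unfold pL
    rw [e1]
    split_ifs <;> simp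
  · ext v
    rw [NormD_mem_AL, mem_filter]
    constructor
    · rintro ⟨hv, z', hz', hlt⟩
      have hl := lev_uc H (mem_uc.2 hz')
      rcases h1 z' (by omega) (by omega) with h | h | ⟨h, h'⟩
      · rw [h] at hz' hlt
        exact ⟨mem_uc.2 hz', hlt⟩
      · rw [h] at hl
        omega
      · have h3 : v ∈ uc z' := mem_uc.2 hz'
        rw [h, mem_singleton] at h3
        rw [h3] at hv
        omega
    · rintro ⟨hv, hlt⟩
      have hl := lev_uc H hv
      exact ⟨by omega, y, mem_uc.1 hv, hlt⟩

/-- a single element below `y` with a larger label -/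
lemma kill_dat (H : Gr P r) {e : P → ℕ} {y z : P} (hy : lev y = i + 1) (hz : uc z = {y})
    (h1 : ∀ x, i < lev x → e x ≠ 0 → x = y ∨ x = z)
    (h2 : e y < e z) (h3 : ∀ v ∈ uc y, e v < e y) : LDat i e 1 1 (uc y) := by
  classical
  have hzy : z ⋖ y := by rw [← mem_uc, hz]; exact mem_singleton_self y
  have hlz : lev z = i + 2 := by
    have := lev_uc H (mem_uc.2 hzy)
    omega
  have hFD : ∀ x, i < lev x → (FD e x ↔ x = y) := by
    intro x hx
    constructor
    · rintro ⟨z', hz', hlt⟩
      have hl := lev_uc H (mem_uc.2 hz')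
      rcases h1 z' (by omega) (by omega) with h | h
      · rw [h] at hl
        omega
      · rw [h] at hz'
        have h3 : x ∈ uc z := mem_uc.2 hz'
        rwa [hz, mem_singleton] at h3
    · rintro rfl
      exact ⟨z, hzy, h2⟩
  have hGU : ∀ x, i < lev x → (GU e x ↔ x ≠ y ∧ x ≠ z) := by
    intro x hx
    constructor
    · rintro ⟨v, hv, hle⟩
      constructor
      · rintro rfl
        have := h3 v (mem_uc.2 hv)
        omega
      · rintro rfl
        have h4 : v ∈ uc x := mem_uc.2 hv
        rw [hz, mem_singleton] at h4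
        rw [h4] at hle
        omega
    · rintro ⟨h4, h5⟩
      refine ExpC_GU H (by omega) ?_
      by_contra h0
      rcases h1 x hx h0 with h | h
      · exact h4 h
      · exact h5 h
  refine ⟨fun x hx h => ?_, ?_, ?_, ?_⟩
  · rw [hFD x hx, hGU x hx] at h
    exact h.2.1 h.1
  · unfold aL
    rw [Finset.card_eq_one]
    refine ⟨y, ?_⟩
    ext x
    rw [mem_filter, mem_singleton]
    constructor
    · rintro ⟨-, hx, h⟩
      exact (hFD x hx).1 h
    · rintro rfl
      exact ⟨mem_univ _, by omega, (hFD x (by omega)).2 rfl⟩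
  · unfold pL
    rw [Finset.card_eq_one]
    refine ⟨z, ?_⟩
    ext x
    rw [mem_filter, mem_singleton]
    constructor
    · rintro ⟨-, hx, h, h'⟩
      rw [hFD x hx] at h
      rw [hGU x hx] at h'
      by_contra h4
      exact h' ⟨h, h4⟩
    · rintro rfl
      refine ⟨mem_univ _, by omega, ?_, ?_⟩
      · rw [hFD x (by omega)]
        rintro rfl
        omega
      · rw [hGU x (by omega)]
        exact fun h => h.2 rfl
  · ext v
    rw [NormD_mem_AL]
    constructor
    · rintro ⟨hv, z', hz', hlt⟩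
      have hl := lev_uc H (mem_uc.2 hz')
      rcases h1 z' (by omega) (by omega) with h | h
      · rw [h] at hz'
        exact mem_uc.2 hz'
      · rw [h] at hl
        omega
    · intro hv
      have hl := lev_uc H hv
      exact ⟨by omega, y, mem_uc.1 hv, h3 v hv⟩

/-- the data of `cl z` -/
lemma cl_dat (H : Gr P r) {z : P} (hz : lev z = i + 2) :
    LDat i (cl z) 0 (uc z).card (sts i z) := by
  classical
  have hlow : ∀ x, 0 < cl z x → i < lev x := by
    intro x hx
    rcases ExpC_cl_pos hx with h | h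
    · rw [h]; omega
    · rw [ExpC_lev_uc H hz h]; omega
  have hs0 : ∀ u, lev u = i → cl z u = 0 := by
    intro u hu
    by_contra hcon
    have := hlow u (Nat.pos_of_ne_zero hcon)
    omega
  have hFD : ∀ x, i < lev x → ¬ FD (cl z) x := by
    rintro x hx ⟨z', hz', hlt⟩
    have h1 := ExpC_cl_le z z'
    have h2 : cl z x = 0 := by omega
    rcases ExpC_cl_pos (z := z) (x := z') (by omega) with h | h
    · have h3 : cl z x = 1 := ExpC_cl_uc (mem_uc.2 (h ▸ hz'))
      omega
    · have h3 := ExpC_lev_uc H hz h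
      have h4 := ExpC_cov H hz'
      omega
  refine ⟨fun x hx h => hFD x hx h.1, ?_, ?_, ?_⟩
  · unfold aL
    rw [Finset.card_eq_zero, Finset.filter_eq_empty_iff]
    rintro x - ⟨hx, h⟩
    exact hFD x hx h
  · unfold pL
    congr 1
    ext x
    rw [mem_filter]
    constructor
    · rintro ⟨-, h1, -, h3⟩
      by_contra hx
      apply h3
      by_cases hxz : x = z
      · obtain ⟨w, hw⟩ := uc_nonempty H (x := z) (by omega)
        refine ⟨w, by rw [hxz]; exact mem_uc.1 hw, ?_⟩
        rw [hxz, ExpC_cl_z, ExpC_cl_uc hw]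
      · refine ExpC_GU H (by omega) ?_
        by_contra hne
        rcases ExpC_cl_pos (Nat.pos_of_ne_zero hne) with h | h
        · exact hxz h
        · exact hx h
    · intro hx
      have h1 := ExpC_lev_uc H hz hx
      refine ⟨mem_univ _, by omega, hFD x (by omega), ?_⟩
      rintro ⟨y, hy, hle⟩
      have h2 := ExpC_cov H hy
      have h3 := hs0 y (by omega)
      rw [ExpC_cl_uc hx] at hle
      omega
  · ext v
    unfold AL
    rw [Finset.mem_filter, mem_lv]
    constructor
    · rintro ⟨hv, z', hz', hlt⟩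
      rcases ExpC_cl_pos (z := z) (x := z') (by omega) with h | h
      · have h3 := ExpC_cov H hz'
        rw [h] at h3
        omega
      · exact (mem_sts_iff H hz).2 ⟨z', h, mem_uc.2 hz'⟩
    · intro hv
      have hv1 := (mem_sts.1 hv).1
      obtain ⟨w, hw, hwv⟩ := (mem_sts_iff H hz).1 hv
      refine ⟨hv1, w, mem_uc.1 hwv, ?_⟩
      rw [hs0 v hv1, ExpC_cl_uc hw]
      exact one_pos

/-- the data of `cu x` -/
lemma cu_dat (H : Gr P r) (hi : i ≤ r) {x : P} (hx : lev x + 2 = i) :
    UDat i (cu x) 0 (dc x).card (stD i x) := by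
  have h1 : lev (toDual x) = r - i + 2 := by
    rw [lev_od H]
    have := H.hr x
    omega
  have h2 := cl_dat H.dual h1
  have h3 : (uc (toDual x)).card = (dc x).card := by rw [uc_od, Finset.card_map]
  rw [← cu_od, h3] at h2
  refine h2.to_UDat H hi fun v => ?_
  rw [mem_sts, mem_stD, lev_od H, toDual_lt_toDual]
  have := H.hr v
  constructor
  · rintro ⟨h4, h5⟩
    exact ⟨by omega, h5⟩
  · rintro ⟨h4, h5⟩
    exact ⟨by omega, h5⟩

end Pool.Agent.GaussPoset.Win
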