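import Pool.Agent.W_448al_h63.LD
import Pool.Agent.W_448win_h16.ExpD
import Pool.Agent.W_448win_h16.CoreC

/-! The coefficient of energy three of a part, without the configurations which excite `PD` or
`PU`. -/

namespace Pool.Agent.GaussPoset.Win

set_option linter.unusedSectionVars false

open Finset OrderDual

universe u

variable {P : Type u} [Fintype P] [PartialOrder P] [DecidableEq P] {r i : ℕ}

open Classical in
/-- the part without `PD` and `PU` -/
noncomputable def Dm (i : ℕ) (C : Finset P) : Finset P :=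
  C.filter (fun x => x ∉ PD P i ∧ x ∉ PU P i)

open Classical in
/-- elements of level `i + 2` with three sites above -/
noncomputable def ZL (i : ℕ) (C : Finset P) : Finset P :=
  C.filter (fun z => lev z = i + 2 ∧ up i z = 3)

open Classical in
/-- elements of level `i - 2` with three sites below -/
noncomputable def ZU (i : ℕ) (C : Finset P) : Finset P :=
  C.filter (fun z => lev z + 2 = i ∧ dn i z = 3)

lemma mem_Dm {C : Finset P} {x : P} : x ∈ Dm i C ↔ x ∈ C ∧ x ∉ PD P i ∧ x ∉ PU P i := by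
  classical
  unfold Dm
  rw [mem_filter]

lemma mem_ZL {C : Finset P} {x : P} : x ∈ ZL i C ↔ x ∈ C ∧ lev x = i + 2 ∧ up i x = 3 := by
  classical
  unfold ZL
  rw [mem_filter]

lemma mem_ZU {C : Finset P} {x : P} : x ∈ ZU i C ↔ x ∈ C ∧ lev x + 2 = i ∧ dn i x = 3 := by
  classical
  unfold ZU
  rw [mem_filter]

lemma lev_PD {z : P} (h : z ∈ PD P i) : lev z = i + 2 ∧ (uc z).card = 1 := by
  classical
  unfold PD at h
  rw [mem_filter] at h
  exact ⟨h.2.1, h.2.2.1⟩

lemma lev_PU {z : P} (h : z ∈ PU P i) : lev z + 2 = i ∧ (dc z).card = 1 := by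
  classical
  unfold PU at h
  rw [mem_filter] at h
  exact ⟨h.2.1, h.2.2.1⟩

lemma card_uc_of_up (H : Gr P r) {z : P} (hz : lev z = i + 2) (h : up i z = 3) :
    (uc z).card = 2 := by
  classical
  have h1 : sts i z = (uc z).biUnion uc := by
    ext v
    rw [mem_sts_iff H hz, mem_biUnion]
  have h2 : ((uc z).biUnion uc).card ≤ ∑ w ∈ uc z, (uc w).card := Finset.card_biUnion_le
  have h3 : ∑ w ∈ uc z, (uc w).card ≤ ∑ _w ∈ uc z, 2 :=
    Finset.sum_le_sum (fun w _ => uc_card_le H w)
  have h4 := uc_card_le H z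
  rw [Finset.sum_const, smul_eq_mul] at h3
  rw [← h1, card_sts, h] at h2
  omega

lemma card_dc_of_dn (H : Gr P r) {z : P} (hz : lev z + 2 = i) (h : dn i z = 3) :
    (dc z).card = 2 := by
  classical
  have h1 : stD i z = (dc z).biUnion dc := by
    ext v
    rw [mem_stD_iff H hz, mem_biUnion]
  have h2 : ((dc z).biUnion dc).card ≤ ∑ w ∈ dc z, (dc w).card := Finset.card_biUnion_le
  have h3 : ∑ w ∈ dc z, (dc w).card ≤ ∑ _w ∈ dc z, 2 :=
    Finset.sum_le_sum (fun w _ => dc_card_le H w)
  have h4 := dc_card_le H z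
  rw [Finset.sum_const, smul_eq_mul] at h3
  rw [← h1, card_stD, h] at h2
  omega

section part

variable {C : Finset P}

lemma part_up (hC : Part i C) {x y : P} (hx : x ∈ C) (h : x ≤ y) : y ∈ C := by
  have key : ∀ w, w ≤ y → w ∈ C → y ∈ C := by
    refine normb_induct (C := fun w => w ∈ C → y ∈ C) (fun h => h) ?_
    intro x w hxw _ ih hx
    exact ih (hC.up hx hxw)
  exact key x h hx

lemma spt_cl (hC : Part i C) {z : P} (hz : z ∈ C) : Spt C (cl z) := by
  intro x hx
  by_contra h
  rcases ExpC_cl_pos (z := z) (x := x) (Nat.pos_of_ne_zero h) with h | h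
  · rw [h] at hx
    exact hx hz
  · exact hx (hC.up hz (mem_uc.1 h))

lemma cu_pos {x y : P} (h : 0 < cu x y) : y = x ∨ y ∈ dc x := by
  by_contra hcon
  rw [not_or] at hcon
  have := ExpD_cu_zero hcon.1 hcon.2
  omega

lemma spt_cu (hC : Part i C) {z : P} (hz : z ∈ C) (hl : lev z < i) : Spt C (cu z) := by
  intro x hx
  by_contra h
  rcases cu_pos (x := z) (y := x) (Nat.pos_of_ne_zero h) with h | h
  · rw [h] at hx
    exact hx hz
  · exact hx (hC.dn hz hl (mem_dc.1 h))

lemma cl_up_zero (H : Gr P r) {z : P} (hz : lev z = i + 2) : ∀ x, lev x < i → cl z x = 0 := by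
  intro x hx
  by_contra h
  rcases ExpC_cl_pos (z := z) (x := x) (Nat.pos_of_ne_zero h) with h | h
  · rw [h] at hx
    omega
  · have := lev_uc H h
    omega

lemma cu_low_zero (H : Gr P r) {z : P} (hz : lev z + 2 = i) : ∀ x, i < lev x → cu z x = 0 := by
  intro x hx
  by_contra h
  rcases cu_pos (x := z) (y := x) (Nat.pos_of_ne_zero h) with h | h
  · rw [h] at hx
    omega
  · have := lev_dc H h
    omega

lemma core_cl {psi : P → P} {z : P} (H : Gr P r) (hz : lev z = i + 2) :
    IsCore i ∅ psi (cl z) := by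
  intro x hx
  obtain ⟨h1, -, h2, -⟩ := mem_Rst.1 hx
  by_contra h
  rcases ExpC_cl_pos (z := z) (x := x) (Nat.pos_of_ne_zero h) with h | h
  · rw [mem_near, h] at h1
    omega
  · apply h2
    rw [mem_Tch]
    have := lev_uc H h
    exact Or.inl ⟨by omega, z, mem_uc.1 h, by rw [ExpC_cl_z]; exact one_pos⟩

lemma core_cu {psi : P → P} {z : P} (H : Gr P r) (hz : lev z + 2 = i) :
    IsCore i ∅ psi (cu z) := by
  intro x hx
  obtain ⟨h1, -, h2, -⟩ := mem_Rst.1 hx
  by_contra h
  rcases cu_pos (x := z) (y := x) (Nat.pos_of_ne_zero h) with h | h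
  · rw [mem_near, h] at h1
    omega
  · apply h2
    rw [mem_Tch]
    have := lev_dc H h
    exact Or.inr ⟨by omega, z, mem_dc.1 h, by rw [ExpD_cu_x]; exact one_pos⟩

lemma sum_cu (H : Gr P r) (x : P) : ∑ y, cu x y = (dc x).card + 1 := by
  have h1 := clb_sum_cl (toDual x)
  rw [uc_od, Finset.card_map] at h1
  rw [← h1, ← ClD_sum (cu x), cu_od]

/-- THE BASE FORMULA -/
theorem base3 (H : Gr P r) (hi : 1 ≤ i) (hi2 : i + 1 ≤ r)
    (hg : ∀ m, i ≤ m + 1 → m ≤ i + 1 → Good P m) (hC : Part (i + 1) C) :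
    dd ^ (st i C).card ∣ ∑ e ∈ (Dm i C).piAntidiag 3, tC i C e -
      (((ZL i C).card : A) * (xx ^ 3 * dd ^ ((st i C).card - 1)) +
        ((ZU i C).card : A) * (xi ^ 2 * dd ^ ((st i C).card - 1))) := by
  classical
  have hC' : Part i C := ⟨fun h1 h2 => hC.up h1 h2, fun h1 h2 h3 => hC.dn h1 (by omega) h3⟩
  obtain ⟨psi, hM⟩ := good_mat H (hg i (by omega) (by omega))
  have h3 : ∀ z : P, lev z = i + 2 → up i z ≤ 3 := fun z hz =>
    up_le_three H (hg (i + 1) (by omega) (by omega)) hz
  have h3' : ∀ x : P, lev x + 2 = i → dn i x ≤ 3 := fun x hx =>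
    LC_dn_le_three H (fun m hm => hg m (by omega) (by omega)) hx
  have hDC : Dm i C ⊆ C := fun x hx => (mem_Dm.1 hx).1
  have hD : ∀ x ∈ C, x ∈ near P i → x ∈ Dm i C := by
    intro x hx hn
    rw [mem_near] at hn
    refine mem_Dm.2 ⟨hx, fun h => ?_, fun h => ?_⟩
    · have := (lev_PD h).1
      omega
    · have := (lev_PU h).1
      omega
  have hcls : ∀ e : P → ℕ, IsCore i ∅ psi e → Spt (Dm i C) e → ∑ x, e x ≤ 3 →
      Rk (st i C) 0 (Fe i e) ∨ (∃ z, lev z = i + 2 ∧ up i z = 3 ∧ e = cl z) ∨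
      (∃ x, lev x + 2 = i ∧ dn i x = 3 ∧ e = cu x) := by
    intro e he hs hn
    rcases cl3 H hi hi2 hM h3 h3' (e := e) (fun z hz => hs z fun h => (mem_Dm.1 h).2.1 hz)
      (fun z hz => hs z fun h => (mem_Dm.1 h).2.2 hz) he hn with h | h
    · exact Or.inl (Rk_sub (st_sub i C) h)
    · exact Or.inr h
  have h1 := core_part H hi hi2 hC hDC hD hM 3 (by
    intro e he hs hn
    rcases hcls e he hs (by omega) with h | ⟨z, hz, hz2, rfl⟩ | ⟨z, hz, hz2, rfl⟩
    · exact h
    · rw [clb_sum_cl, card_uc_of_up H hz hz2] at hn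
      omega
    · rw [sum_cu H, card_dc_of_dn H hz hz2] at hn
      omega)
  set F := (Dm i C).piAntidiag 3 |>.filter
    (fun e => IsCore i ∅ psi e ∧ ¬ Rk (st i C) 0 (Fe i e)) with hF
  set T := (ZL i C).image cl ∪ (ZU i C).image cu with hT
  have hFT : F ⊆ T := by
    intro e he
    rw [hF, mem_filter, mem_piA] at he
    obtain ⟨⟨h4, h5⟩, h6, h7⟩ := he
    rw [hT, mem_union, mem_image, mem_image]
    rcases hcls e h6 h5 (by omega) with h | ⟨z, hz, hz2, rfl⟩ | ⟨z, hz, hz2, rfl⟩
    · exact absurd h h7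
    · left
      refine ⟨z, mem_ZL.2 ⟨?_, hz, hz2⟩, rfl⟩
      by_contra hzC
      have := h5 z fun h => hzC (hDC h)
      rw [ExpC_cl_z] at this
      omega
    · right
      refine ⟨z, mem_ZU.2 ⟨?_, hz, hz2⟩, rfl⟩
      by_contra hzC
      have := h5 z fun h => hzC (hDC h)
      rw [ExpD_cu_x] at this
      omega
  have hTF : ∀ e ∈ T \ F, dd ^ (st i C).card ∣ tC i C e := by
    intro e he
    rw [mem_sdiff, hT, mem_union, mem_image, mem_image, hF, mem_filter, mem_piA] at he
    obtain ⟨h4, h5⟩ := he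
    have key : ∑ x, e x = 3 ∧ Spt (Dm i C) e ∧ IsCore i ∅ psi e ∧ Spt C e := by
      rcases h4 with ⟨z, hz, rfl⟩ | ⟨z, hz, rfl⟩
      · rw [mem_ZL] at hz
        refine ⟨by rw [clb_sum_cl, card_uc_of_up H hz.2.1 hz.2.2], ?_,
          core_cl H hz.2.1, spt_cl hC' hz.1⟩
        intro x hx
        by_contra h
        apply hx
        have hxC : x ∈ C := by
          by_contra h6
          exact h (spt_cl hC' hz.1 x h6)
        refine mem_Dm.2 ⟨hxC, fun h6 => ?_, fun h6 => ?_⟩
        · have h7 := lev_PD h6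
          rcases ExpC_cl_pos (z := z) (x := x) (Nat.pos_of_ne_zero h) with h8 | h8
          · rw [h8] at h7
            have := card_uc_of_up H hz.2.1 hz.2.2
            omega
          · have := lev_uc H h8
            omega
        · have h7 := lev_PU h6
          exact h (cl_up_zero H hz.2.1 x (by omega))
      · rw [mem_ZU] at hz
        refine ⟨by rw [sum_cu H, card_dc_of_dn H hz.2.1 hz.2.2], ?_,
          core_cu H hz.2.1, spt_cu hC' hz.1 (by omega)⟩
        intro x hx
        by_contra h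
        apply hx
        have hxC : x ∈ C := by
          by_contra h6
          exact h (spt_cu hC' hz.1 (by omega) x h6)
        refine mem_Dm.2 ⟨hxC, fun h6 => ?_, fun h6 => ?_⟩
        · have h7 := lev_PD h6
          exact h (cu_low_zero H hz.2.1 x (by omega))
        · have h7 := lev_PU h6
          rcases cu_pos (x := z) (y := x) (Nat.pos_of_ne_zero h) with h8 | h8
          · rw [h8] at h7
            have := card_dc_of_dn H hz.2.1 hz.2.2
            omega
          · have := lev_dc H h8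
            omega
    have h6 : Rk (st i C) 0 (Fe i e) := by
      by_contra h7
      exact h5 ⟨⟨key.1, key.2.1⟩, key.2.2.1, h7⟩
    rw [tC_IV H hC' key.2.2.2]
    have := Rk_IV h6
    simpa using this
  have hsum : ∑ e ∈ T, tC i C e = ∑ z ∈ ZL i C, tC i C (cl z) + ∑ z ∈ ZU i C, tC i C (cu z) := by
    rw [hT, Finset.sum_union, Finset.sum_image, Finset.sum_image]
    · intro z hz z' hz' h
      rw [mem_coe, mem_ZU] at hz hz'
      have h4 : cu z z' = 1 := by rw [h, ExpD_cu_x]
      rcases cu_pos (x := z) (y := z') (by omega) with h5 | h5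
      · exact h5.symm
      · have := lev_dc H h5
        omega
    · intro z hz z' hz' h
      rw [mem_coe, mem_ZL] at hz hz'
      have h4 : cl z z' = 1 := by rw [h, ExpC_cl_z]
      rcases ExpC_cl_pos (z := z) (x := z') (by omega) with h5 | h5
      · exact h5.symm
      · have := lev_uc H h5
        omega
    · rw [Finset.disjoint_left]
      intro e he he'
      rw [mem_image] at he he'
      obtain ⟨z, hz, rfl⟩ := he
      obtain ⟨z', hz', h⟩ := he'
      rw [mem_ZL] at hz
      rw [mem_ZU] at hz'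
      have h4 : cl z z' = 1 := by rw [← h, ExpD_cu_x]
      have h5 := cl_up_zero H hz.2.1 z' (by omega)
      omega
  have hL : ∀ z ∈ ZL i C, tC i C (cl z) = xx ^ 3 * dd ^ ((st i C).card - 1) := by
    intro z hz
    rw [mem_ZL] at hz
    have h4 : (sts i z).card = 3 := by rw [card_sts]; exact hz.2.2
    have h5 : (sts i z).card ≤ (st i C).card := by
      apply card_le_card
      intro v hv
      rw [mem_sts] at hv
      exact mem_st.2 ⟨part_up hC' hz.1 hv.2.le, hv.1⟩
    rw [(cl_dat H hz.2.1).tC H (by omega) (cl_up_zero H hz.2.1), h4,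
      card_uc_of_up H hz.2.1 hz.2.2, zero_add]
    congr 2
    omega
  have hU : ∀ z ∈ ZU i C, tC i C (cu z) = xi ^ 2 * dd ^ ((st i C).card - 1) := by
    intro z hz
    rw [mem_ZU] at hz
    have h4 : (stD i z).card = 3 := by rw [card_stD]; exact hz.2.2
    have h5 : (stD i z).card ≤ (st i C).card := by
      apply card_le_card
      intro v hv
      rw [mem_stD_iff H hz.2.1] at hv
      obtain ⟨u, hu, hv⟩ := hv
      have l1 := lev_dc H hu
      have l2 := lev_dc H hv
      exact mem_st.2 ⟨hC'.dn (hC'.dn hz.1 (by omega) (mem_dc.1 hu)) (by omega) (mem_dc.1 hv),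
        by omega⟩
    rw [(cu_dat H (by omega) hz.2.1).tC H (cu_low_zero H hz.2.1), h4,
      card_dc_of_dn H hz.2.1 hz.2.2, zero_add]
    congr 2
    omega
  have h8 : ∑ e ∈ T, tC i C e = ∑ e ∈ F, tC i C e + ∑ e ∈ T \ F, tC i C e := by
    rw [add_comm, Finset.sum_sdiff hFT]
  rw [hsum, Finset.sum_congr rfl hL, Finset.sum_congr rfl hU, Finset.sum_const, Finset.sum_const,
    nsmul_eq_mul, nsmul_eq_mul] at h8
  rw [h8]
  have h9 := Finset.dvd_sum hTF
  have h10 := dvd_sub h1 h9
  convert h10 using 1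
  ring

end part

end Pool.Agent.GaussPoset.Win
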