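import Pool.Agent.W_448al_h63.LE

/-! The configurations of energy three which excite an element of `PD` (lower class) or of `PU`
(upper class). -/

namespace Pool.Agent.GaussPoset.Win

set_option linter.unusedSectionVars false

open Finset OrderDual

universe u

variable {P : Type u} [Fintype P] [PartialOrder P] [DecidableEq P] {r i : ℕ}

/-- mirror image of `chain_dat` -/
lemma chain_datU (H : Gr P r) (hi : i ≤ r) {e : P → ℕ} {u x : P} (hu : lev u + 1 = i)
    (hx : dc x = {u})
    (h1 : ∀ w, lev w < i → e w ≠ 0 → w = u ∨ w = x ∨ (dc w = {x} ∧ e w ≤ e x))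
    (h2 : e x ≤ e u) :
    UDat i e 0 (if ∀ v ∈ dc u, e v < e u then 1 else 0) ((dc u).filter (fun v => e v < e u)) := by
  have k0 : uc (toDual x) = {toDual u} := by
    rw [uc_od, hx, Finset.map_singleton]
    rfl
  have k1 : lev (toDual u) = r - i + 1 := by
    rw [lev_od H]
    have := H.hr u
    omega
  have k2 := chain_dat H.dual (i := r - i) (e := eo e) k1 k0 (by
    intro w hw hne
    have hl := DualC_lev H w
    have hl' := H.hr (ofDual w)
    rcases h1 (ofDual w) (by omega) hne with h | h | ⟨h, h'⟩
    · left
      rw [← h, toDual_ofDual]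
    · right; left
      rw [← h, toDual_ofDual]
    · right; right
      refine ⟨?_, h'⟩
      have := uc_od (ofDual w)
      rw [toDual_ofDual] at this
      rw [this, h, Finset.map_singleton]
      rfl) h2
  have e1 : (∀ v ∈ uc (toDual u), eo e v < eo e (toDual u)) ↔ ∀ v ∈ dc u, e v < e u := by
    rw [uc_od]
    constructor
    · intro h v hv
      exact h (toDual v) (Finset.mem_map.2 ⟨v, hv, rfl⟩)
    · intro h v hv
      rw [Finset.mem_map] at hv
      obtain ⟨w, hw, rfl⟩ := hv
      exact h w hw
  simp only [e1] at k2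
  refine k2.to_UDat H hi fun v => ?_
  rw [mem_filter, mem_filter, uc_od, Finset.mem_map]
  constructor
  · rintro ⟨h3, h4⟩
    exact ⟨⟨v, h3, rfl⟩, h4⟩
  · rintro ⟨⟨w, hw, h3⟩, h4⟩
    have : w = v := toDual.toEmbedding.injective h3
    rw [this] at hw
    exact ⟨hw, h4⟩

/-- mirror image of `kill_dat` -/
lemma kill_datU (H : Gr P r) (hi : i ≤ r) {e : P → ℕ} {u x : P} (hu : lev u + 1 = i)
    (hx : dc x = {u}) (h1 : ∀ w, lev w < i → e w ≠ 0 → w = u ∨ w = x)
    (h2 : e u < e x) (h3 : ∀ v ∈ dc u, e v < e u) : UDat i e 1 1 (dc u) := by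
  have k0 : uc (toDual x) = {toDual u} := by
    rw [uc_od, hx, Finset.map_singleton]
    rfl
  have k1 : lev (toDual u) = r - i + 1 := by
    rw [lev_od H]
    have := H.hr u
    omega
  have k2 := kill_dat H.dual (i := r - i) (e := eo e) k1 k0 (by
    intro w hw hne
    have hl := DualC_lev H w
    have hl' := H.hr (ofDual w)
    rcases h1 (ofDual w) (by omega) hne with h | h
    · left
      rw [← h, toDual_ofDual]
    · right
      rw [← h, toDual_ofDual]) h2 (by
    intro v hv
    rw [uc_od, Finset.mem_map] at hv
    obtain ⟨w, hw, rfl⟩ := hv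
    exact h3 w hw)
  refine k2.to_UDat H hi fun v => ?_
  rw [uc_od, Finset.mem_map]
  constructor
  · intro h4
    exact ⟨v, h4, rfl⟩
  · rintro ⟨w, hw, h4⟩
    have : w = v := toDual.toEmbedding.injective h4
    rwa [this] at hw

lemma tC_not_admL {C : Finset P} {e : P → ℕ} (h : ¬ AdmL i e) : tC i C e = 0 := by
  unfold tC
  split_ifs
  · unfold cw
    rw [if_neg (fun h' => h h'.1), zero_mul]
  · rfl

lemma tC_not_admU {C : Finset P} {e : P → ℕ} (h : ¬ AdmU i e) : tC i C e = 0 := by
  unfold tC
  split_ifs
  · unfold cw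
    rw [if_neg (fun h' => h h'.2), zero_mul]
  · rfl

lemma tC_not_disj {C : Finset P} {e : P → ℕ} (h : ¬ Disjoint (AL i e) (AU i e)) :
    tC i C e = 0 := by
  unfold tC
  rw [if_neg h]

open Classical in
/-- elements of level `i + 3` with the single cover `z` -/
noncomputable def FLo (C : Finset P) (z : P) : Finset P := C.filter (fun w => uc w = {z})

open Classical in
/-- elements of level `i - 3` with the single lower cover `x` -/
noncomputable def FUp (C : Finset P) (x : P) : Finset P := C.filter (fun w => dc w = {x})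

lemma mem_FLo {C : Finset P} {z w : P} : w ∈ FLo C z ↔ w ∈ C ∧ uc w = {z} := by
  classical
  unfold FLo
  rw [mem_filter]

lemma mem_FUp {C : Finset P} {z w : P} : w ∈ FUp C z ↔ w ∈ C ∧ dc w = {z} := by
  classical
  unfold FUp
  rw [mem_filter]

open Classical in
/-- the other near elements of the part -/
noncomputable def Nr (i : ℕ) (C : Finset P) (y u : P) : Finset P :=
  C.filter (fun w => w ∈ near P i ∧ w ≠ y ∧ w ≠ u)

lemma mem_Nr {C : Finset P} {y u w : P} :
    w ∈ Nr i C y u ↔ w ∈ C ∧ w ∈ near P i ∧ w ≠ y ∧ w ≠ u := by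
  classical
  unfold Nr
  rw [mem_filter]

/-- LOWER CLASS -/
theorem low_class (H : Gr P r) (hi : i ≤ r) {C : Finset P} (hC : Part (i + 1) C)
    {z y u : P} (hy : lev y = i + 1) (hz : uc z = {y}) (h2 : (uc y).card = 2)
    (hu : lev u + 1 = i) (hyu : dc u = uc y) (hzC : z ∈ C)
    (huniq : ∀ z' ∈ C, uc z' = {y} → z' = z) :
    ∑ v ∈ C, tC i C (cl z + sg v) =
      xx ^ 3 * dd ^ ((st i C).card - 1) + xx ^ 2 * dd ^ ((st i C).card - 1) +
      2 * (xx * dd ^ ((st i C).card - 1)) +
      (((st i C).card - 2 : ℕ) : A) * (xx ^ 2 * dd ^ ((st i C).card - 1)) +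
      ((FLo C z).card : A) * (xx ^ 2 * dd ^ ((st i C).card - 1)) +
      ∑ v ∈ Nr i C y u, tC i C (cl z + sg v) := by
  classical
  have hC' : Part i C := ⟨fun h1 h2 => hC.up h1 h2, fun h1 h2 h3 => hC.dn h1 (by omega) h3⟩
  have hzy : z ⋖ y := by rw [← mem_uc, hz]; exact mem_singleton_self y
  have hlz : lev z = i + 2 := by
    have := lev_uc H (mem_uc.2 hzy)
    omega
  have hyC : y ∈ C := hC.up hzC hzy
  have hE : uc y ⊆ st i C := by
    intro v hv
    have := lev_uc H hv
    exact mem_st.2 ⟨hC.up hyC (mem_uc.1 hv), by omega⟩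
  have hb : 2 ≤ (st i C).card := by
    rw [← h2]
    exact card_le_card hE
  set b := (st i C).card with hbdef
  have clv : ∀ x, cl z x = if x = z ∨ x = y then 1 else 0 := by
    intro x
    unfold cl
    simp only [hz, mem_singleton]
  have ev : ∀ v x, (cl z + sg v : P → ℕ) x = (if x = z ∨ x = y then 1 else 0) + if x = v then 1 else 0 := by
    intro v x
    rw [Pi.add_apply, clv]
    congr 1
    by_cases h : x = v
    · rw [h, ExpC_sg_self, if_pos rfl]
    · rw [ExpC_sg_ne h, if_neg h]
  have hzny : z ≠ y := by rintro rfl; omega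
  have up0 : ∀ v, i ≤ lev v → ∀ x, lev x < i → (cl z + sg v : P → ℕ) x = 0 := by
    intro v hv x hx
    rw [ev, if_neg, if_neg]
    · rintro rfl; omega
    · rintro (rfl | rfl) <;> omega
  -- the values
  have v1 : tC i C (cl z + sg z) = xx ^ 3 * dd ^ (b - 1) := by
    have hd := kill_dat H (e := cl z + sg z) hy hz (by
      intro x hx hne
      rw [ev] at hne
      by_contra hcon
      rw [not_or] at hcon
      rw [if_neg (fun h => h.elim hcon.2 hcon.1), if_neg hcon.2] at hne
      exact hne rfl) (by
      rw [ev, ev, if_pos (Or.inr rfl), if_pos (Or.inl rfl), if_neg hzny.symm, if_pos rfl]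
      omega) (by
      intro v hv
      have := lev_uc H hv
      rw [ev, ev, if_neg, if_neg, if_pos (Or.inr rfl)]
      · omega
      · rintro rfl; omega
      · rintro (rfl | rfl) <;> omega)
    rw [hd.tC H hi (up0 z (by omega)), h2]
    congr 2
    omega
  have chain : ∀ v, v ≠ z → (∀ x, i < lev x → x = v → x = y ∨ (uc x = {z})) → i ≤ lev v →
      LDat i (cl z + sg v) 0 (if ∀ w ∈ uc y, (cl z + sg v : P → ℕ) w < (cl z + sg v : P → ℕ) y then 1 else 0)
        ((uc y).filter (fun w => (cl z + sg v : P → ℕ) w < (cl z + sg v : P → ℕ) y)) := by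
    intro v hv hv2 _
    refine chain_dat H hy hz ?_ ?_
    · intro x hx hne
      rw [ev] at hne
      by_cases h4 : x = z ∨ x = y
      · rcases h4 with h4 | h4
        · exact Or.inr (Or.inl h4)
        · exact Or.inl h4
      · rw [if_neg h4, zero_add] at hne
        have h5 : x = v := by
          by_contra h
          rw [if_neg h] at hne
          exact hne rfl
        rcases hv2 x hx h5 with h6 | h6
        · exact Or.inl h6
        · refine Or.inr (Or.inr ⟨h6, ?_⟩)
          rw [ev, ev, if_neg h4, if_pos h5, if_pos (Or.inl rfl)]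
          omega
    · rw [ev, ev, if_pos (Or.inl rfl), if_pos (Or.inr rfl), if_neg (fun h => hv h.symm)]
      omega
  have site0 : ∀ v w, w ∈ uc y → w ≠ v → (cl z + sg v : P → ℕ) w = 0 := by
    intro v w hw hne
    have := lev_uc H hw
    rw [ev, if_neg, if_neg hne]
    rintro (rfl | rfl) <;> omega
  have full : ∀ v, v ∉ uc y → v ≠ z → (∀ x, i < lev x → x = v → x = y ∨ (uc x = {z})) →
      i ≤ lev v → tC i C (cl z + sg v) = xx ^ 2 * dd ^ (b - 1) := by
    intro v hv hvz hv2 hvl
    have hd := chain v hvz hv2 hvl
    have hall : ∀ w ∈ uc y, (cl z + sg v : P → ℕ) w < (cl z + sg v : P → ℕ) y := by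
      intro w hw
      rw [site0 v w hw (by rintro rfl; exact hv hw), ev, if_pos (Or.inr rfl)]
      omega
    rw [if_pos hall, Finset.filter_true_of_mem hall] at hd
    rw [hd.tC H hi (up0 v hvl), h2]
    congr 2
    omega
  have half : ∀ v ∈ uc y, tC i C (cl z + sg v) = xx * dd ^ (b - 1) := by
    intro v hv
    have hlv := lev_uc H hv
    have hd := chain v (by rintro rfl; omega) (by rintro x hx rfl; omega) (by omega)
    have a1 : (cl z + sg v : P → ℕ) v = 1 := by
      rw [ev, if_neg, if_pos rfl]
      rintro (h | h)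
      · rw [h] at hlv
        omega
      · rw [h] at hlv
        omega
    have a2 : (cl z + sg v : P → ℕ) y = 1 := by
      rw [ev, if_pos (Or.inr rfl), if_neg]
      intro h
      rw [← h] at hlv
      omega
    have h5 : ¬ ∀ w ∈ uc y, (cl z + sg v : P → ℕ) w < (cl z + sg v : P → ℕ) y := by
      intro h
      have := h v hv
      omega
    have h6 : (uc y).filter (fun w => (cl z + sg v : P → ℕ) w < (cl z + sg v : P → ℕ) y) =
        (uc y).erase v := by
      ext w
      rw [mem_filter, mem_erase]
      constructor
      · rintro ⟨h7, h8⟩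
        refine ⟨?_, h7⟩
        intro h9
        rw [h9] at h8
        omega
      · rintro ⟨h7, h8⟩
        refine ⟨h8, ?_⟩
        rw [site0 v w h8 h7, a2]
        omega
    rw [if_neg h5, h6] at hd
    rw [hd.tC H hi (up0 v (by omega)), card_erase_of_mem hv, h2, ← hbdef]
    simp
  -- the decomposition
  set W : Finset P := insert z (insert y (st i C ∪ (FLo C z ∪ Nr i C y u))) with hW
  have lFL : ∀ w ∈ FLo C z, lev w = i + 3 := by
    intro w hw
    have := lev_uc H (x := w) (v := z) (by rw [(mem_FLo.1 hw).2]; exact mem_singleton_self z)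
    omega
  have hWC : W ⊆ C := by
    intro v hv
    rw [hW, mem_insert, mem_insert, mem_union, mem_union] at hv
    rcases hv with rfl | rfl | h | h | h
    · exact hzC
    · exact hyC
    · exact (mem_st.1 h).1
    · exact (mem_FLo.1 h).1
    · exact (mem_Nr.1 h).1
  have hout : ∀ v ∈ C, v ∉ W → tC i C (cl z + sg v) = 0 := by
    intro v hv hvW
    rw [hW, mem_insert, mem_insert, mem_union, mem_union, not_or, not_or, not_or, not_or] at hvW
    obtain ⟨n1, n2, n3, n4, n5⟩ := hvW
    by_cases hvu : v = u
    · subst hvu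
      apply tC_not_disj
      intro hd
      obtain ⟨p, hp⟩ : (uc y).Nonempty := by
        rw [← card_pos]
        omega
      have lp := lev_uc H hp
      have p0 : (cl z + sg v : P → ℕ) p = 0 := site0 v p hp (by rintro rfl; omega)
      have h4 : p ∈ AL i (cl z + sg v) := by
        rw [NormD_mem_AL]
        refine ⟨by omega, y, mem_uc.1 hp, ?_⟩
        rw [p0, ev, if_pos (Or.inr rfl)]
        omega
      have h5 : p ∈ AU i (cl z + sg v) := by
        rw [NormD_mem_AU]
        refine ⟨by omega, v, ?_, ?_⟩
        · rw [← mem_dc, hyu]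
          exact hp
        · rw [p0, ev, if_pos rfl]
          omega
      exact disjoint_left.1 hd h4 h5
    have hnl : lev v ≠ i := fun h => n3 (mem_st.2 ⟨hv, h⟩)
    have hnn : ¬ v ∈ near P i := fun h => n5 (mem_Nr.2 ⟨hv, h, n2, hvu⟩)
    rw [mem_near, not_or] at hnn
    rcases Nat.lt_or_gt_of_ne hnl with h | h
    · apply tC_not_admU
      intro hA
      obtain ⟨w, hw⟩ := dc_nonempty H (x := v) (by omega)
      have lw := lev_dc H hw
      have h4 := pos_dn H hi hA (x := v) (y := w) (by omega) (by
        rw [ev, if_pos rfl]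
        omega) (mem_dc.1 hw)
      rw [ev, if_neg, if_neg] at h4
      · omega
      · rintro rfl; omega
      · rintro (rfl | rfl) <;> omega
    · apply tC_not_admL
      intro hA
      have key : ∀ w ∈ uc v, w = z ∨ w = y := by
        intro w hw
        have lw := lev_uc H hw
        have h4 := pos_up H hA (z := v) (y := w) (by omega) (by
          rw [ev, if_pos rfl]
          omega) (mem_uc.1 hw)
        by_contra hcon
        rw [ev, if_neg hcon, if_neg] at h4
        · omega
        · rintro rfl; omega
      obtain ⟨w, hw⟩ := uc_nonempty H (x := v) (by omega)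
      have lw := lev_uc H hw
      rcases key w hw with h4 | h4
      · apply n4
        rw [mem_FLo]
        refine ⟨hv, ?_⟩
        rw [Finset.eq_singleton_iff_unique_mem]
        refine ⟨by rw [← h4]; exact hw, fun w' hw' => ?_⟩
        rcases key w' hw' with h5 | h5
        · exact h5
        · have := lev_uc H hw'
          rw [h5] at this
          rw [h4] at lw
          omega
      · apply n1
        apply huniq v hv
        rw [Finset.eq_singleton_iff_unique_mem]
        refine ⟨by rw [← h4]; exact hw, fun w' hw' => ?_⟩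
        rcases key w' hw' with h5 | h5
        · have := lev_uc H hw'
          rw [h5] at this
          rw [h4] at lw
          omega
        · exact h5
  rw [← Finset.sum_subset hWC hout, hW, Finset.sum_insert, Finset.sum_insert, Finset.sum_union,
    Finset.sum_union]
  · have e1 : ∑ v ∈ st i C, tC i C (cl z + sg v) =
        2 * (xx * dd ^ (b - 1)) + ((b - 2 : ℕ) : A) * (xx ^ 2 * dd ^ (b - 1)) := by
      rw [← Finset.sum_sdiff hE, Finset.sum_congr rfl (fun v hv => half v hv), Finset.sum_const,
        Finset.sum_congr rfl (fun v hv => full v (mem_sdiff.1 hv).2 ?_ ?_ ?_), Finset.sum_const,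
        card_sdiff_of_subset hE, h2, nsmul_eq_mul, nsmul_eq_mul, Nat.cast_ofNat, add_comm]
      · have := (mem_st.1 (mem_sdiff.1 hv).1).2
        rintro rfl
        omega
      · have := (mem_st.1 (mem_sdiff.1 hv).1).2
        rintro x hx rfl
        omega
      · have := (mem_st.1 (mem_sdiff.1 hv).1).2
        omega
    have e2 : ∑ v ∈ FLo C z, tC i C (cl z + sg v) =
        ((FLo C z).card : A) * (xx ^ 2 * dd ^ (b - 1)) := by
      rw [Finset.sum_congr rfl (fun v hv => full v ?_ ?_ ?_ ?_), Finset.sum_const, nsmul_eq_mul]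
      · intro h
        have := lev_uc H h
        have := lFL v hv
        omega
      · have := lFL v hv
        rintro rfl
        omega
      · rintro x hx rfl
        exact Or.inr (mem_FLo.1 hv).2
      · have := lFL v hv
        omega
    have e3 : tC i C (cl z + sg y) = xx ^ 2 * dd ^ (b - 1) := by
      refine full y ?_ hzny.symm ?_ (by omega)
      · intro h
        have := lev_uc H h
        omega
      · rintro x hx rfl
        exact Or.inl rfl
    rw [v1, e1, e2, e3]
    ring
  · rw [disjoint_left]
    intro w hw hw'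
    have h4 := lFL w hw
    have h5 := (mem_Nr.1 hw').2.1
    rw [mem_near] at h5
    omega
  · rw [disjoint_left]
    intro w hw hw'
    have h3 := (mem_st.1 hw).2
    rcases mem_union.1 hw' with h | h
    · have h4 := lFL w h
      omega
    · have h5 := (mem_Nr.1 h).2.1
      rw [mem_near] at h5
      omega
  · intro h
    rcases mem_union.1 h with h | h
    · have := (mem_st.1 h).2
      omega
    · rcases mem_union.1 h with h | h
      · have := lFL y h
        omega
      · exact (mem_Nr.1 h).2.2.1 rfl
  · intro h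
    rcases mem_insert.1 h with h | h
    · exact hzny h
    · rcases mem_union.1 h with h | h
      · have := (mem_st.1 h).2
        omega
      · rcases mem_union.1 h with h | h
        · have := lFL z h
          omega
        · have h5 := (mem_Nr.1 h).2.1
          rw [mem_near] at h5
          omega

end Pool.Agent.GaussPoset.Win
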