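import Pool.Agent.W_448al_h63.LF
import Pool.Agent.W_448win_h16.ClE

/-! The configurations of energy three which excite an element of `PU` (upper class). -/

namespace Pool.Agent.GaussPoset.Win

set_option linter.unusedSectionVars false

open Finset OrderDual

universe u

variable {P : Type u} [Fintype P] [PartialOrder P] [DecidableEq P] {r i : ℕ}

/-- UPPER CLASS -/
theorem upp_class (H : Gr P r) (hi : i + 1 ≤ r) {C : Finset P} (hC : Part (i + 1) C)
    {x y u : P} (hu : lev u + 1 = i) (hx : dc x = {u}) (h2 : (dc u).card = 2)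
    (hy : lev y = i + 1) (hyu : dc u = uc y) (hxC : x ∈ C)
    (huniq : ∀ x' ∈ C, dc x' = {u} → x' = x) :
    ∑ v ∈ C, tC i C (cu x + sg v) =
      xi ^ 2 * dd ^ ((st i C).card - 1) + xi * dd ^ ((st i C).card - 1) +
      2 * dd ^ ((st i C).card - 1) +
      (((st i C).card - 2 : ℕ) : A) * (xi * dd ^ ((st i C).card - 1)) +
      ((FUp C x).card : A) * (xi * dd ^ ((st i C).card - 1)) +
      ∑ v ∈ Nr i C y u, tC i C (cu x + sg v) := by
  classical
  have hC' : Part i C := ⟨fun h1 h2 => hC.up h1 h2, fun h1 h2 h3 => hC.dn h1 (by omega) h3⟩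
  have hzy : u ⋖ x := by rw [← mem_dc, hx]; exact mem_singleton_self u
  have hlz : lev x + 2 = i := by
    have := lev_dc H (mem_dc.2 hzy)
    omega
  have huC : u ∈ C := hC.dn hxC (by omega) hzy
  have hE : dc u ⊆ st i C := by
    intro v hv
    have := lev_dc H hv
    exact mem_st.2 ⟨hC.dn huC (by omega) (mem_dc.1 hv), by omega⟩
  have hb : 2 ≤ (st i C).card := by
    rw [← h2]
    exact card_le_card hE
  set b := (st i C).card with hbdef
  have clv : ∀ w, cu x w = if w = x ∨ w = u then 1 else 0 := by
    intro w
    unfold cu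
    simp only [hx, mem_singleton]
  have ev : ∀ v w, (cu x + sg v : P → ℕ) w =
      (if w = x ∨ w = u then 1 else 0) + if w = v then 1 else 0 := by
    intro v w
    rw [Pi.add_apply, clv]
    congr 1
    by_cases h : w = v
    · rw [h, ExpC_sg_self, if_pos rfl]
    · rw [ExpC_sg_ne h, if_neg h]
  have hzny : x ≠ u := by rintro rfl; omega
  have up0 : ∀ v, lev v ≤ i → ∀ w, i < lev w → (cu x + sg v : P → ℕ) w = 0 := by
    intro v hv w hw
    rw [ev, if_neg, if_neg]
    · rintro rfl; omega
    · rintro (rfl | rfl) <;> omega
  -- the values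
  have v1 : tC i C (cu x + sg x) = xi ^ 2 * dd ^ (b - 1) := by
    have hd := kill_datU H (by omega) (e := cu x + sg x) hu hx (by
      intro w hw hne
      rw [ev] at hne
      by_contra hcon
      rw [not_or] at hcon
      rw [if_neg (fun h => h.elim hcon.2 hcon.1), if_neg hcon.2] at hne
      exact hne rfl) (by
      rw [ev, ev, if_pos (Or.inr rfl), if_pos (Or.inl rfl), if_neg hzny.symm, if_pos rfl]
      omega) (by
      intro v hv
      have := lev_dc H hv
      rw [ev, ev, if_neg, if_neg, if_pos (Or.inr rfl)]
      · omega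
      · rintro rfl; omega
      · rintro (rfl | rfl) <;> omega)
    rw [hd.tC H (up0 x (by omega)), h2]
    congr 2
    omega
  have chain : ∀ v, v ≠ x → (∀ w, lev w < i → w = v → w = u ∨ (dc w = {x})) →
      UDat i (cu x + sg v) 0
        (if ∀ w ∈ dc u, (cu x + sg v : P → ℕ) w < (cu x + sg v : P → ℕ) u then 1 else 0)
        ((dc u).filter (fun w => (cu x + sg v : P → ℕ) w < (cu x + sg v : P → ℕ) u)) := by
    intro v hv hv2
    refine chain_datU H (by omega) hu hx ?_ ?_
    · intro w hw hne
      rw [ev] at hne
      by_cases h4 : w = x ∨ w = u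
      · rcases h4 with h4 | h4
        · exact Or.inr (Or.inl h4)
        · exact Or.inl h4
      · rw [if_neg h4, zero_add] at hne
        have h5 : w = v := by
          by_contra h
          rw [if_neg h] at hne
          exact hne rfl
        rcases hv2 w hw h5 with h6 | h6
        · exact Or.inl h6
        · refine Or.inr (Or.inr ⟨h6, ?_⟩)
          rw [ev, ev, if_neg h4, if_pos h5, if_pos (Or.inl rfl)]
          omega
    · rw [ev, ev, if_pos (Or.inl rfl), if_pos (Or.inr rfl), if_neg (fun h => hv h.symm)]
      omega
  have site0 : ∀ v w, w ∈ dc u → w ≠ v → (cu x + sg v : P → ℕ) w = 0 := by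
    intro v w hw hne
    have := lev_dc H hw
    rw [ev, if_neg, if_neg hne]
    rintro (rfl | rfl) <;> omega
  have full : ∀ v, v ∉ dc u → v ≠ x → (∀ w, lev w < i → w = v → w = u ∨ (dc w = {x})) →
      lev v ≤ i → tC i C (cu x + sg v) = xi * dd ^ (b - 1) := by
    intro v hv hvz hv2 hvl
    have hd := chain v hvz hv2
    have hall : ∀ w ∈ dc u, (cu x + sg v : P → ℕ) w < (cu x + sg v : P → ℕ) u := by
      intro w hw
      rw [site0 v w hw (by rintro rfl; exact hv hw), ev, if_pos (Or.inr rfl)]
      omega
    rw [if_pos hall, Finset.filter_true_of_mem hall] at hd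
    rw [hd.tC H (up0 v hvl), h2, zero_add, pow_one]
    congr 2
    omega
  have half : ∀ v ∈ dc u, tC i C (cu x + sg v) = dd ^ (b - 1) := by
    intro v hv
    have hlv := lev_dc H hv
    have hd := chain v (by rintro rfl; omega) (by rintro w hw rfl; omega)
    have a1 : (cu x + sg v : P → ℕ) v = 1 := by
      rw [ev, if_neg, if_pos rfl]
      rintro (h | h)
      · rw [h] at hlv
        omega
      · rw [h] at hlv
        omega
    have a2 : (cu x + sg v : P → ℕ) u = 1 := by
      rw [ev, if_pos (Or.inr rfl), if_neg]
      intro h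
      rw [← h] at hlv
      omega
    have h5 : ¬ ∀ w ∈ dc u, (cu x + sg v : P → ℕ) w < (cu x + sg v : P → ℕ) u := by
      intro h
      have := h v hv
      omega
    have h6 : (dc u).filter (fun w => (cu x + sg v : P → ℕ) w < (cu x + sg v : P → ℕ) u) =
        (dc u).erase v := by
      ext w
      rw [mem_filter, mem_erase]
      constructor
      · rintro ⟨h7, h8⟩
        refine ⟨?_, h7⟩
        intro h9
        rw [h9] at h8
        omega
      · rintro ⟨h7, h8⟩
        refine ⟨h8, ?_⟩
        rw [site0 v w h8 h7, a2]
        omega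
    rw [if_neg h5, h6] at hd
    rw [hd.tC H (up0 v (by omega)), card_erase_of_mem hv, h2, ← hbdef]
    simp
  -- the decomposition
  set W : Finset P := insert x (insert u (st i C ∪ (FUp C x ∪ Nr i C y u))) with hW
  have lFL : ∀ w ∈ FUp C x, lev w + 3 = i := by
    intro w hw
    have := lev_dc H (x := w) (v := x) (by rw [(mem_FUp.1 hw).2]; exact mem_singleton_self x)
    omega
  have hWC : W ⊆ C := by
    intro v hv
    rw [hW, mem_insert, mem_insert, mem_union, mem_union] at hv
    rcases hv with rfl | rfl | h | h | h
    · exact hxC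
    · exact huC
    · exact (mem_st.1 h).1
    · exact (mem_FUp.1 h).1
    · exact (mem_Nr.1 h).1
  have hout : ∀ v ∈ C, v ∉ W → tC i C (cu x + sg v) = 0 := by
    intro v hv hvW
    rw [hW, mem_insert, mem_insert, mem_union, mem_union, not_or, not_or, not_or, not_or] at hvW
    obtain ⟨n1, n2, n3, n4, n5⟩ := hvW
    by_cases hvu : v = y
    · subst hvu
      apply tC_not_disj
      intro hd
      obtain ⟨p, hp⟩ : (dc u).Nonempty := by
        rw [← card_pos]
        omega
      have lp := lev_dc H hp
      have p0 : (cu x + sg v : P → ℕ) p = 0 := site0 v p hp (by rintro rfl; omega)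
      have h4 : p ∈ AL i (cu x + sg v) := by
        rw [NormD_mem_AL]
        refine ⟨by omega, v, ?_, ?_⟩
        · rw [← mem_uc, ← hyu]
          exact hp
        · rw [p0, ev, if_pos rfl]
          omega
      have h5 : p ∈ AU i (cu x + sg v) := by
        rw [NormD_mem_AU]
        refine ⟨by omega, u, mem_dc.1 hp, ?_⟩
        rw [p0, ev, if_pos (Or.inr rfl)]
        omega
      exact disjoint_left.1 hd h4 h5
    have hnl : lev v ≠ i := fun h => n3 (mem_st.2 ⟨hv, h⟩)
    have hnn : ¬ v ∈ near P i := fun h => n5 (mem_Nr.2 ⟨hv, h, hvu, n2⟩)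
    rw [mem_near, not_or] at hnn
    rcases Nat.lt_or_gt_of_ne hnl with h | h
    · apply tC_not_admU
      intro hA
      have key : ∀ w ∈ dc v, w = x ∨ w = u := by
        intro w hw
        have lw := lev_dc H hw
        have h4 := pos_dn H (by omega) hA (x := v) (y := w) (by omega) (by
          rw [ev, if_pos rfl]
          omega) (mem_dc.1 hw)
        by_contra hcon
        rw [ev, if_neg hcon, if_neg] at h4
        · omega
        · rintro rfl; omega
      obtain ⟨w, hw⟩ := dc_nonempty H (x := v) (by omega)
      have lw := lev_dc H hw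
      rcases key w hw with h4 | h4
      · apply n4
        rw [mem_FUp]
        refine ⟨hv, ?_⟩
        rw [Finset.eq_singleton_iff_unique_mem]
        refine ⟨by rw [← h4]; exact hw, fun w' hw' => ?_⟩
        rcases key w' hw' with h5 | h5
        · exact h5
        · have := lev_dc H hw'
          rw [h5] at this
          rw [h4] at lw
          omega
      · apply n1
        apply huniq v hv
        rw [Finset.eq_singleton_iff_unique_mem]
        refine ⟨by rw [← h4]; exact hw, fun w' hw' => ?_⟩
        rcases key w' hw' with h5 | h5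
        · have := lev_dc H hw'
          rw [h5] at this
          rw [h4] at lw
          omega
        · exact h5
    · apply tC_not_admL
      intro hA
      obtain ⟨w, hw⟩ := uc_nonempty H (x := v) (by omega)
      have lw := lev_uc H hw
      have h4 := pos_up H hA (z := v) (y := w) (by omega) (by
        rw [ev, if_pos rfl]
        omega) (mem_uc.1 hw)
      rw [ev, if_neg, if_neg] at h4
      · omega
      · rintro rfl; omega
      · rintro (rfl | rfl) <;> omega
  rw [← Finset.sum_subset hWC hout, hW, Finset.sum_insert, Finset.sum_insert, Finset.sum_union,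
    Finset.sum_union]
  · have e1 : ∑ v ∈ st i C, tC i C (cu x + sg v) =
        2 * dd ^ (b - 1) + ((b - 2 : ℕ) : A) * (xi * dd ^ (b - 1)) := by
      rw [← Finset.sum_sdiff hE, Finset.sum_congr rfl (fun v hv => half v hv), Finset.sum_const,
        Finset.sum_congr rfl (fun v hv => full v (mem_sdiff.1 hv).2 ?_ ?_ ?_), Finset.sum_const,
        card_sdiff_of_subset hE, h2, nsmul_eq_mul, nsmul_eq_mul, Nat.cast_ofNat, add_comm]
      · have := (mem_st.1 (mem_sdiff.1 hv).1).2
        rintro rfl
        omega
      · have := (mem_st.1 (mem_sdiff.1 hv).1).2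
        rintro x hx rfl
        omega
      · have := (mem_st.1 (mem_sdiff.1 hv).1).2
        omega
    have e2 : ∑ v ∈ FUp C x, tC i C (cu x + sg v) =
        ((FUp C x).card : A) * (xi * dd ^ (b - 1)) := by
      rw [Finset.sum_congr rfl (fun v hv => full v ?_ ?_ ?_ ?_), Finset.sum_const, nsmul_eq_mul]
      · intro h
        have := lev_dc H h
        have := lFL v hv
        omega
      · have := lFL v hv
        rintro rfl
        omega
      · rintro w hw rfl
        exact Or.inr (mem_FUp.1 hv).2
      · have := lFL v hv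
        omega
    have e3 : tC i C (cu x + sg u) = xi * dd ^ (b - 1) := by
      refine full u ?_ hzny.symm ?_ (by omega)
      · intro h
        have := lev_dc H h
        omega
      · rintro w hw rfl
        exact Or.inl rfl
    rw [v1, e1, e2, e3]
    ring
  · rw [disjoint_left]
    intro w hw hw'
    have h4 := lFL w hw
    have h5 := (mem_Nr.1 hw').2.1
    rw [mem_near] at h5
    omega
  · rw [disjoint_left]
    intro w hw hw'
    have h3 := (mem_st.1 hw).2
    rcases mem_union.1 hw' with h | h
    · have h4 := lFL w h
      omega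
    · have h5 := (mem_Nr.1 h).2.1
      rw [mem_near] at h5
      omega
  · intro h
    rcases mem_union.1 h with h | h
    · have := (mem_st.1 h).2
      omega
    · rcases mem_union.1 h with h | h
      · have := lFL u h
        omega
      · exact (mem_Nr.1 h).2.2.2 rfl
  · intro h
    rcases mem_insert.1 h with h | h
    · exact hzny h
    · rcases mem_union.1 h with h | h
      · have := (mem_st.1 h).2
        omega
      · rcases mem_union.1 h with h | h
        · have := lFL x h
          omega
        · have h5 := (mem_Nr.1 h).2.1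
          rw [mem_near] at h5
          omega

/-- the near configurations of both classes together have no deficits -/
theorem near_class (H : Gr P r) (hi : 1 ≤ i) (hi2 : i + 1 ≤ r) (hg : Good P i)
    {C : Finset P} (hC : Part (i + 1) C) {z x y u : P} (hy : lev y = i + 1) (hz : uc z = {y})
    (h2 : (uc y).card = 2) (hu : lev u + 1 = i) (hx : dc x = {u}) (hyu : dc u = uc y)
    (hzC : z ∈ C) (hxC : x ∈ C) (hone : ∀ w : P, lev w + 1 = i → dc w = uc y → w = u) :
    dd ^ (st i C).card ∣ ∑ v ∈ Nr i C y u, tC i C (cl z + sg v) +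
      ∑ v ∈ Nr i C y u, tC i C (cu x + sg v) := by
  classical
  have hC' : Part i C := ⟨fun h1 h2 => hC.up h1 h2, fun h1 h2 h3 => hC.dn h1 (by omega) h3⟩
  obtain ⟨psi, hM⟩ := good_mat H hg
  have hzy : z ⋖ y := by rw [← mem_uc, hz]; exact mem_singleton_self y
  have hlz : lev z = i + 2 := by
    have := lev_uc H (mem_uc.2 hzy)
    omega
  have hyC : y ∈ C := hC.up hzC hzy
  have hxu : u ⋖ x := by rw [← mem_dc, hx]; exact mem_singleton_self u
  have hlx : lev x + 2 = i := by
    have := lev_dc H (mem_dc.2 hxu)
    omega
  have huC : u ∈ C := hC.dn hxC (by omega) hxu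
  have hyd : y ∈ dbL P i := mem_dbL.2 ⟨hy, h2⟩
  have hpsi : psi y = u := by
    have h3 := hM.low y hyd (Finset.notMem_empty _)
    exact hone _ (mem_dbU.1 h3.1).1 h3.2
  have hpsi2 : psi u = y := by
    rw [← hpsi]
    exact (hM.invol y (mem_union_left _ hyd) (Finset.notMem_empty _)).1
  have hR1 : RstC i C psi (cl z) = Nr i C y u := by
    ext w
    rw [mem_RstC, mem_Rst, mem_Nr]
    have hT : w ∈ Tch i (cl z) ↔ w = y := by
      rw [mem_Tch]
      constructor
      · rintro (⟨h3, v, hv, h4⟩ | ⟨h3, v, hv, h4⟩)
        · have lv := lev_uc H (mem_uc.2 hv)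
          rcases ExpC_cl_pos h4 with h5 | h5
          · rw [h5] at hv
            have h6 := mem_uc.2 hv
            rwa [hz, mem_singleton] at h6
          · rw [hz, mem_singleton] at h5
            rw [h5] at lv
            omega
        · have lv := lev_uc H (mem_uc.2 hv)
          have := cl_up_zero H hlz v (by omega)
          omega
      · rintro rfl
        exact Or.inl ⟨hy, z, hzy, by rw [ExpC_cl_z]; exact one_pos⟩
    constructor
    · rintro ⟨⟨h3, -, h4, h5⟩, h6⟩
      refine ⟨h6, h3, fun h => h4 (hT.2 h), ?_⟩
      rintro rfl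
      apply h5
      refine ⟨mem_union_right _ (mem_dbU.2 ⟨hu, by rw [hyu]; exact h2⟩), ?_⟩
      rw [hpsi2, mem_Tch]
      exact Or.inl ⟨hy, z, hzy, by rw [ExpC_cl_z]; exact one_pos⟩
    · rintro ⟨h3, h4, h5, h6⟩
      refine ⟨⟨h4, Finset.notMem_empty _, fun h => h5 (hT.1 h), ?_⟩, h3⟩
      rintro ⟨h7, h8⟩
      have h9 : psi w = y := by
        rw [mem_Tch] at h8
        rcases h8 with ⟨h10, v, hv, h11⟩ | ⟨h10, v, hv, h11⟩
        · rcases ExpC_cl_pos h11 with h12 | h12
          · rw [h12] at hv
            have h13 := mem_uc.2 hv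
            rwa [hz, mem_singleton] at h13
          · rw [hz, mem_singleton] at h12
            have lv := lev_uc H (mem_uc.2 hv)
            rw [h12] at lv
            omega
        · have lv := lev_uc H (mem_uc.2 hv)
          have := cl_up_zero H hlz v (by omega)
          omega
      apply h6
      rw [← (hM.invol w h7 (Finset.notMem_empty _)).1, h9, hpsi]
  have hR2 : RstC i C psi (cu x) = Nr i C y u := by
    ext w
    rw [mem_RstC, mem_Rst, mem_Nr]
    have hT : ∀ w, w ∈ Tch i (cu x) ↔ w = u := by
      intro w
      rw [mem_Tch]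
      constructor
      · rintro (⟨h3, v, hv, h4⟩ | ⟨h3, v, hv, h4⟩)
        · have lv := lev_uc H (mem_uc.2 hv)
          have := cu_low_zero H hlx v (by omega)
          omega
        · have lv := lev_uc H (mem_uc.2 hv)
          rcases cu_pos h4 with h5 | h5
          · rw [h5] at hv
            have h6 := mem_dc.2 hv
            rwa [hx, mem_singleton] at h6
          · rw [hx, mem_singleton] at h5
            rw [h5] at lv
            omega
      · rintro rfl
        exact Or.inr ⟨hu, x, hxu, by rw [ExpD_cu_x]; exact one_pos⟩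
    constructor
    · rintro ⟨⟨h3, -, h4, h5⟩, h6⟩
      refine ⟨h6, h3, ?_, fun h => h4 ((hT w).2 h)⟩
      rintro rfl
      apply h5
      refine ⟨mem_union_left _ hyd, ?_⟩
      rw [hpsi, hT]
    · rintro ⟨h3, h4, h5, h6⟩
      refine ⟨⟨h4, Finset.notMem_empty _, fun h => h6 ((hT w).1 h), ?_⟩, h3⟩
      rintro ⟨h7, h8⟩
      rw [hT] at h8
      apply h5
      rw [← (hM.invol w h7 (Finset.notMem_empty _)).1, h8, hpsi2]
  -- the sums as weighted sums
  have hwt : ∀ v ∈ Nr i C y u, ∀ S, wt i (cu x) v 1 S = wt i (cl z) v 1 S := by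
    intro v _ S
    have hs : ∀ w, lev w = i → cu x w = cl z w := by
      intro w hw
      have h3 : cu x w = 0 := by
        by_contra h
        rcases cu_pos (Nat.pos_of_ne_zero h) with h4 | h4
        · rw [h4] at hw
          omega
        · rw [hx, mem_singleton] at h4
          rw [h4] at hw
          omega
      have h4 : cl z w = 0 := by
        by_contra h
        rcases ExpC_cl_pos (Nat.pos_of_ne_zero h) with h4 | h4
        · rw [h4] at hw
          omega
        · rw [hz, mem_singleton] at h4
          rw [h4] at hw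
          omega
      rw [h3, h4]
    unfold wt
    split_ifs with hv1
    · unfold wtL
      have e1 : (∀ w ∈ uc v, cu x w < 1) ↔ ∀ w ∈ uc v, cl z w < 1 := by
        constructor
        · intro h w hw
          have := lev_uc H hw
          rw [← hs w (by omega)]
          exact h w hw
        · intro h w hw
          have := lev_uc H hw
          rw [hs w (by omega)]
          exact h w hw
      have e2 : (∀ w ∈ uc v, cu x w < 1 → w ∈ S) ↔ ∀ w ∈ uc v, cl z w < 1 → w ∈ S := by
        constructor
        · intro h w hw
          have := lev_uc H hw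
          rw [← hs w (by omega)]
          exact h w hw
        · intro h w hw
          have := lev_uc H hw
          rw [hs w (by omega)]
          exact h w hw
      simp only [e1, e2]
    · have hv2 : lev v + 1 = i := by
        have := (mem_Nr.1 (by assumption)).2.1
        rw [mem_near] at this
        omega
      unfold wtU
      have e1 : (∀ w ∈ dc v, cu x w < 1) ↔ ∀ w ∈ dc v, cl z w < 1 := by
        constructor
        · intro h w hw
          have := lev_dc H hw
          rw [← hs w (by omega)]
          exact h w hw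
        · intro h w hw
          have := lev_dc H hw
          rw [hs w (by omega)]
          exact h w hw
      have e2 : (∀ w ∈ dc v, cu x w < 1 → w ∉ S) ↔ ∀ w ∈ dc v, cl z w < 1 → w ∉ S := by
        constructor
        · intro h w hw
          have := lev_dc H hw
          rw [← hs w (by omega)]
          exact h w hw
        · intro h w hw
          have := lev_dc H hw
          rw [hs w (by omega)]
          exact h w hw
      simp only [e1, e2]
  have hsp1 : ∀ v ∈ Nr i C y u, Spt C (cl z + sg v) := by
    intro v hv
    rw [spt_add_iff]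
    refine ⟨spt_cl hC' hzC, fun w hw => ?_⟩
    exact ExpC_sg_ne (by rintro rfl; exact hw (mem_Nr.1 hv).1)
  have hsp2 : ∀ v ∈ Nr i C y u, Spt C (cu x + sg v) := by
    intro v hv
    rw [spt_add_iff]
    refine ⟨spt_cu hC' hxC (by omega), fun w hw => ?_⟩
    exact ExpC_sg_ne (by rintro rfl; exact hw (mem_Nr.1 hv).1)
  have f1 : ∀ v ∈ Nr i C y u, tC i C (cl z + sg v) =
      IV (st i C) (fun S => Fe i (cl z) S * wt i (cl z) v 1 S) := by
    intro v hv
    rw [tC_IV H hC' (hsp1 v hv)]
    refine IV_congr fun S _ => ?_
    rw [← hR1] at hv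
    exact fact H (by omega) (RstC_near hv) (RstC_Tch v hv) (by
      have := (core_cl (psi := psi) H hlz) v (mem_RstC.1 hv).1
      exact this) 1 S
  have f2 : ∀ v ∈ Nr i C y u, tC i C (cu x + sg v) =
      IV (st i C) (fun S => Fe i (cu x) S * wt i (cl z) v 1 S) := by
    intro v hv
    rw [tC_IV H hC' (hsp2 v hv)]
    refine IV_congr fun S _ => ?_
    rw [← hwt v hv S]
    rw [← hR2] at hv
    exact fact H (by omega) (RstC_near hv) (RstC_Tch v hv) (by
      have := (core_cu (psi := psi) H hlx) v (mem_RstC.1 hv).1
      exact this) 1 S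
  rw [Finset.sum_congr rfl f1, Finset.sum_congr rfl f2, ← IV_sum, ← IV_sum, ← IV_add]
  -- the weights
  have hw1 : Rk (st i C) 0 (fun S => ∑ v ∈ Nr i C y u, wt i (cl z) v 1 S) := by
    have h3 := rest_Rk (e := cl z) H hi hi2 hC hM (cl z) 1
    rw [hR1] at h3
    refine Rk_congr (fun S _ => ?_) h3
    have h4 : (Nr i C y u).piAntidiag 1 = (Nr i C y u).image (fun v => sg v) := by
      ext l
      rw [mem_piA, mem_image]
      constructor
      · rintro ⟨h5, h6⟩
        obtain ⟨v, hv⟩ : ∃ v, l v ≠ 0 := by
          by_contra hcon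
          push Not at hcon
          rw [Finset.sum_eq_zero (fun v _ => hcon v)] at h5
          omega
        have hvN : v ∈ Nr i C y u := by
          by_contra h
          exact hv (h6 v h)
        have h7 := Finset.add_sum_erase univ l (mem_univ v)
        rw [h5] at h7
        refine ⟨v, hvN, ?_⟩
        funext w
        by_cases hwv : w = v
        · rw [hwv, ExpC_sg_self]
          omega
        · rw [ExpC_sg_ne hwv]
          have h8 : ∑ w ∈ univ.erase v, l w = 0 := by omega
          rw [Finset.sum_eq_zero_iff] at h8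
          exact (h8 w (mem_erase.2 ⟨hwv, mem_univ _⟩)).symm
      · rintro ⟨v, hv, rfl⟩
        refine ⟨?_, fun w hw => ExpC_sg_ne (by rintro rfl; exact hw hv)⟩
        unfold sg
        rw [Finset.sum_pi_single']
        simp
    rw [h4, Finset.sum_image]
    · refine Finset.sum_congr rfl fun v hv => ?_
      rw [← Finset.mul_prod_erase _ _ hv, ExpC_sg_self]
      rw [Finset.prod_eq_one, mul_one]
      intro w hw
      rw [mem_erase] at hw
      rw [ExpC_sg_ne hw.1]
      exact wt_zero H (by omega) (mem_Nr.1 hw.2).2.1 _ _
    · intro v _ v' _ h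
      have h5 : sg v v = sg v' v := congrFun h v
      rw [ExpC_sg_self] at h5
      by_contra hne
      rw [ExpC_sg_ne hne] at h5
      omega
  have hw2 : Rk (st i C) 0 (fun S => Fe i (cl z) S + Fe i (cu x) S) := by
    obtain ⟨p, q, hpq, huc⟩ := Finset.card_eq_two.1 h2
    have hp : p ∈ uc y := by rw [huc]; simp
    have hq : q ∈ uc y := by rw [huc]; simp
    have lp := lev_uc H hp
    have lq := lev_uc H hq
    have hpC : p ∈ st i C := mem_st.2 ⟨hC.up hyC (mem_uc.1 hp), by omega⟩
    have hqC : q ∈ st i C := mem_st.2 ⟨hC.up hyC (mem_uc.1 hq), by omega⟩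
    refine Rk_congr (fun S _ => ?_) (FactF_big hpC hqC hpq)
    have s1 : sts i z = {p, q} := by rw [ClE_sts H hlz hz, huc]
    have s2 : stD i x = {p, q} := by rw [ClE_stD H hlx hx, hyu, huc]
    rw [(cl_dat H hlz).Fe H (by omega) (cl_up_zero H hlz), (cu_dat H (by omega) hlx).Fe H
      (cu_low_zero H hlx), s1, s2, hz, hx]
    simp only [Finset.card_singleton, pow_one, pow_zero, one_mul, zero_add]
    unfold chi
    congr 1
    · congr 1
      refine if_congr ?_ rfl rfl
      rw [Finset.insert_subset_iff, Finset.singleton_subset_iff]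
      simp
    · congr 1
      refine if_congr ?_ rfl rfl
      rw [Finset.disjoint_insert_left, Finset.disjoint_singleton_left]
      simp
  have h5 := Rk_IV (Rk_mul hw2 hw1)
  simp only [add_zero, Nat.sub_zero] at h5
  convert h5 using 1
  refine IV_congr fun S _ => ?_
  rw [Finset.sum_congr rfl (fun v _ => rfl), ← Finset.mul_sum, ← Finset.mul_sum]
  ring

end Pool.Agent.GaussPoset.Win
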