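import Pool.Agent.W_448al_h63.LG
import Pool.Agent.W_448i2_h61.TD

/-! The value of the coefficient `(3,1)` of a part. -/

namespace Pool.Agent.GaussPoset.Win

set_option linter.unusedSectionVars false

open Finset OrderDual

universe u

variable {P : Type u} [Fintype P] [PartialOrder P] [DecidableEq P] {r i : ℕ}

open Classical in
/-- elements of level `i + 3` hanging below an element of `PD` -/
noncomputable def FL (i : ℕ) (C : Finset P) : Finset P :=
  C.filter (fun w => ∃ z ∈ PD P i, uc w = {z})

open Classical in
/-- elements of level `i - 3` above an element of `PU` only -/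
noncomputable def FU' (i : ℕ) (C : Finset P) : Finset P :=
  C.filter (fun w => ∃ z ∈ PU P i, dc w = {z})

lemma mem_FL {C : Finset P} {w : P} : w ∈ FL i C ↔ w ∈ C ∧ ∃ z ∈ PD P i, uc w = {z} := by
  classical
  unfold FL
  rw [mem_filter]

lemma mem_FU' {C : Finset P} {w : P} : w ∈ FU' i C ↔ w ∈ C ∧ ∃ z ∈ PU P i, dc w = {z} := by
  classical
  unfold FU'
  rw [mem_filter]

/-- `PD` and `PU` of the part are matched: both empty or one element each, at the same pair of
sites -/
structure Mtc (i : ℕ) (C : Finset P) : Prop where
  out : (∀ z ∈ C, z ∉ PD P i ∧ z ∉ PU P i) ∨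
    ∃ z x y u, z ∈ C ∧ x ∈ C ∧ z ∈ PD P i ∧ x ∈ PU P i ∧ uc z = {y} ∧ dc x = {u} ∧
      dc u = uc y ∧ (uc y).card = 2 ∧ (∀ z' ∈ C, z' ∈ PD P i → z' = z) ∧
      (∀ x' ∈ C, x' ∈ PU P i → x' = x) ∧ (∀ w : P, lev w + 1 = i → dc w = uc y → w = u)

open Classical in
/-- the excess of a configuration over `cl z` -/
lemma split_cl (H : Gr P r) {C : Finset P} {z y : P} (hz : lev z = i + 2) (huc : uc z = {y}) :
    ∑ e ∈ (C.piAntidiag 3).filter (fun e => e z ≠ 0), tC i C e =
      ∑ v ∈ C.filter (fun v => Spt C (cl z + sg v)), tC i C (cl z + sg v) := by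
  classical
  have hzy : z ⋖ y := by rw [← mem_uc, huc]; exact mem_singleton_self y
  have hzny : z ≠ y := hzy.ne
  have hs3 : ∀ v, ∑ x, (cl z + sg v : P → ℕ) x = 3 := by
    intro v
    have h2 : ∑ x, sg v x = 1 := by
      unfold sg
      rw [Finset.sum_pi_single']
      simp
    have h3 : ∑ x, (cl z + sg v : P → ℕ) x = ∑ x, cl z x + ∑ x, sg v x := by
      rw [← Finset.sum_add_distrib]
      rfl
    rw [h3, h2, clb_sum_cl, huc, card_singleton]
  symm
  have hinj : ∀ v v' : P, (cl z + sg v : P → ℕ) = cl z + sg v' → v = v' := by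
    intro v v' h
    have h1 : (cl z + sg v : P → ℕ) v = (cl z + sg v' : P → ℕ) v := by rw [h]
    rw [Pi.add_apply, Pi.add_apply, ExpC_sg_self] at h1
    by_contra hne
    rw [ExpC_sg_ne hne] at h1
    omega
  rw [← Finset.sum_image (s := C.filter (fun v => Spt C (cl z + sg v))) (g := fun v => cl z + sg v)
    (f := fun e => tC i C e) (fun v _ v' _ h => hinj v v' h)]
  apply Finset.sum_subset
  · intro e he
    rw [mem_image] at he
    obtain ⟨v, hv, rfl⟩ := he
    rw [mem_filter] at hv
    rw [mem_filter, mem_piA]
    refine ⟨⟨hs3 v, hv.2⟩, ?_⟩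
    rw [Pi.add_apply, ExpC_cl_z]
    omega
  · intro e he hne
    rw [mem_filter, mem_piA] at he
    obtain ⟨⟨h1, h2⟩, h3⟩ := he
    apply tC_not_admL
    intro hA
    apply hne
    have hey := pos_up H hA (z := z) (y := y) (by omega) (by omega) hzy
    have h4 : ∀ x, cl z x ≤ e x := by
      intro x
      have := ExpC_cl_le z x
      by_cases h : cl z x = 0
      · omega
      · rcases ExpC_cl_pos (z := z) (x := x) (by omega) with h5 | h5
        · rw [h5]
          have := ExpC_cl_z z
          omega
        · rw [huc, mem_singleton] at h5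
          rw [h5] at this ⊢
          omega
    have h5 : ∑ x, (e x - cl z x) = 1 := by
      have h6 : ∑ x, e x = ∑ x, (e x - cl z x) + ∑ x, cl z x := by
        rw [← Finset.sum_add_distrib]
        refine Finset.sum_congr rfl fun x _ => ?_
        have := h4 x
        omega
      rw [h1, clb_sum_cl, huc, card_singleton] at h6
      omega
    obtain ⟨v, hv⟩ : ∃ v, e v - cl z v ≠ 0 := by
      by_contra hcon
      push Not at hcon
      rw [Finset.sum_eq_zero (fun v _ => hcon v)] at h5
      omega
    have h7 := Finset.add_sum_erase univ (fun x => e x - cl z x) (mem_univ v)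
    simp only [h5] at h7
    have h8 : ∑ w ∈ univ.erase v, (e w - cl z w) = 0 := by omega
    rw [Finset.sum_eq_zero_iff] at h8
    have h9 : e = cl z + sg v := by
      funext w
      rw [Pi.add_apply]
      by_cases hwv : w = v
      · subst hwv
        rw [ExpC_sg_self]
        have := h4 w
        omega
      · rw [ExpC_sg_ne hwv]
        have := h8 w (mem_erase.2 ⟨hwv, mem_univ _⟩)
        have := h4 w
        omega
    rw [mem_image]
    refine ⟨v, ?_, h9.symm⟩
    rw [mem_filter]
    constructor
    · by_contra h
      have := h2 v h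
      omega
    · rw [← h9]
      exact h2

open Classical in
lemma split_cu (H : Gr P r) (hi : i ≤ r) {C : Finset P} {z y : P} (hz : lev z + 2 = i)
    (huc : dc z = {y}) :
    ∑ e ∈ (C.piAntidiag 3).filter (fun e => e z ≠ 0), tC i C e =
      ∑ v ∈ C.filter (fun v => Spt C (cu z + sg v)), tC i C (cu z + sg v) := by
  classical
  have hzy : y ⋖ z := by rw [← mem_dc, huc]; exact mem_singleton_self y
  have hzny : z ≠ y := hzy.ne.symm
  have hs3 : ∀ v, ∑ x, (cu z + sg v : P → ℕ) x = 3 := by
    intro v
    have h2 : ∑ x, sg v x = 1 := by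
      unfold sg
      rw [Finset.sum_pi_single']
      simp
    have h3 : ∑ x, (cu z + sg v : P → ℕ) x = ∑ x, cu z x + ∑ x, sg v x := by
      rw [← Finset.sum_add_distrib]
      rfl
    rw [h3, h2, sum_cu H, huc, card_singleton]
  symm
  have hinj : ∀ v v' : P, (cu z + sg v : P → ℕ) = cu z + sg v' → v = v' := by
    intro v v' h
    have h1 : (cu z + sg v : P → ℕ) v = (cu z + sg v' : P → ℕ) v := by rw [h]
    rw [Pi.add_apply, Pi.add_apply, ExpC_sg_self] at h1
    by_contra hne
    rw [ExpC_sg_ne hne] at h1
    omega
  have cu1 : ∀ x, cu z x ≤ 1 := by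
    intro x
    unfold cu
    split_ifs <;> omega
  rw [← Finset.sum_image (s := C.filter (fun v => Spt C (cu z + sg v))) (g := fun v => cu z + sg v)
    (f := fun e => tC i C e) (fun v _ v' _ h => hinj v v' h)]
  apply Finset.sum_subset
  · intro e he
    rw [mem_image] at he
    obtain ⟨v, hv, rfl⟩ := he
    rw [mem_filter] at hv
    rw [mem_filter, mem_piA]
    refine ⟨⟨hs3 v, hv.2⟩, ?_⟩
    rw [Pi.add_apply, ExpD_cu_x]
    omega
  · intro e he hne
    rw [mem_filter, mem_piA] at he
    obtain ⟨⟨h1, h2⟩, h3⟩ := he
    apply tC_not_admU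
    intro hA
    apply hne
    have hey := pos_dn H hi hA (x := z) (y := y) (by omega) (by omega) hzy
    have h4 : ∀ x, cu z x ≤ e x := by
      intro x
      have := cu1 x
      by_cases h : cu z x = 0
      · omega
      · rcases cu_pos (x := z) (y := x) (by omega) with h5 | h5
        · rw [h5]
          have := ExpD_cu_x z
          omega
        · rw [huc, mem_singleton] at h5
          rw [h5] at this ⊢
          omega
    have h5 : ∑ x, (e x - cu z x) = 1 := by
      have h6 : ∑ x, e x = ∑ x, (e x - cu z x) + ∑ x, cu z x := by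
        rw [← Finset.sum_add_distrib]
        refine Finset.sum_congr rfl fun x _ => ?_
        have := h4 x
        omega
      rw [h1, sum_cu H, huc, card_singleton] at h6
      omega
    obtain ⟨v, hv⟩ : ∃ v, e v - cu z v ≠ 0 := by
      by_contra hcon
      push Not at hcon
      rw [Finset.sum_eq_zero (fun v _ => hcon v)] at h5
      omega
    have h7 := Finset.add_sum_erase univ (fun x => e x - cu z x) (mem_univ v)
    simp only [h5] at h7
    have h8 : ∑ w ∈ univ.erase v, (e w - cu z w) = 0 := by omega
    rw [Finset.sum_eq_zero_iff] at h8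
    have h9 : e = cu z + sg v := by
      funext w
      rw [Pi.add_apply]
      by_cases hwv : w = v
      · subst hwv
        rw [ExpC_sg_self]
        have := h4 w
        omega
      · rw [ExpC_sg_ne hwv]
        have := h8 w (mem_erase.2 ⟨hwv, mem_univ _⟩)
        have := h4 w
        omega
    rw [mem_image]
    refine ⟨v, ?_, h9.symm⟩
    rw [mem_filter]
    constructor
    · by_contra h
      have := h2 v h
      omega
    · rw [← h9]
      exact h2

lemma dd_dvd_1 : dd ∣ 1 + xx := by rw [one_add_xx]

lemma dd_dvd_2 : dd ∣ xx ^ 2 + xi := by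
  have h : xx ^ 2 + xi = dd * (xi * (xx ^ 2 - xx + 1)) := by
    rw [← one_add_xx]
    linear_combination (-xx ^ 2) * xx_mul_xi
  rw [h]
  exact dvd_mul_right _ _

lemma dd_dvd_3 : dd ∣ xx ^ 3 + xi ^ 2 := by
  have h : xx ^ 3 + xi ^ 2 = dd * (xi ^ 2 * (xx ^ 4 - xx ^ 3 + xx ^ 2 - xx + 1)) := by
    rw [← one_add_xx]
    linear_combination (-xx ^ 3 * (xx * xi + 1)) * xx_mul_xi
  rw [h]
  exact dvd_mul_right _ _

/-- THE VALUE OF (3,1), divisibility form -/
theorem val3 (H : Gr P r) (hi : 1 ≤ i) (hi2 : i + 1 ≤ r)
    (hg : ∀ m, i ≤ m + 1 → m ≤ i + 1 → Good P m) {C : Finset P} (hC : Part (i + 1) C)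
    (hb : 1 ≤ (st i C).card) (hM : Mtc i C) :
    dd ^ (st i C).card ∣ ZC i C 3 -
      (((ZL i C).card : A) * xx ^ 3 + ((ZU i C).card : A) * xi ^ 2 +
        ((FL i C).card : A) * xx ^ 2 + ((FU' i C).card : A) * xi) * dd ^ ((st i C).card - 1) := by
  classical
  have hC' : Part i C := ⟨fun h1 h2 => hC.up h1 h2, fun h1 h2 h3 => hC.dn h1 (by omega) h3⟩
  have hbase := base3 H hi hi2 hg hC
  rcases hM.out with hN | ⟨z, x, y, u, hzC, hxC, hzP, hxP, hz, hx, hyu, h2, hz1, hx1, hone⟩
  · have e1 : Dm i C = C := by
      ext w
      rw [mem_Dm]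
      exact ⟨fun h => h.1, fun h => ⟨h, hN w h⟩⟩
    have e2 : FL i C = ∅ := by
      rw [Finset.eq_empty_iff_forall_notMem]
      intro w hw
      obtain ⟨h3, z, hz, hz2⟩ := mem_FL.1 hw
      have h4 : z ∈ C := by
        refine hC.up h3 ?_
        rw [← mem_uc, hz2]
        exact mem_singleton_self z
      exact (hN z h4).1 hz
    have e3 : FU' i C = ∅ := by
      rw [Finset.eq_empty_iff_forall_notMem]
      intro w hw
      obtain ⟨h3, z, hz, hz2⟩ := mem_FU'.1 hw
      have hzw : z ⋖ w := by
        rw [← mem_dc, hz2]
        exact mem_singleton_self z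
      have l1 := lev_uc H (mem_uc.2 hzw)
      have l2 := (lev_PU hz).1
      have h4 : z ∈ C := hC.dn h3 (by omega) hzw
      exact (hN z h4).2 hz
    rw [e1] at hbase
    rw [e2, e3]
    unfold ZC
    convert hbase using 1
    simp only [Finset.card_empty, Nat.cast_zero, zero_mul, add_zero]
    ring
  · have lz := (lev_PD hzP).1
    have lx := (lev_PU hxP).1
    have hzy : z ⋖ y := by rw [← mem_uc, hz]; exact mem_singleton_self y
    have hux : u ⋖ x := by rw [← mem_dc, hx]; exact mem_singleton_self u
    have ly : lev y = i + 1 := by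
      have := lev_uc H (mem_uc.2 hzy)
      omega
    have lu : lev u + 1 = i := by
      have := lev_uc H (mem_uc.2 hux)
      omega
    have hyC : y ∈ C := hC.up hzC hzy
    have huC : u ∈ C := hC.dn hxC (by omega) hux
    -- decomposition of the sum
    have hdec : ZC i C 3 = ∑ e ∈ (Dm i C).piAntidiag 3, tC i C e +
        ∑ e ∈ (C.piAntidiag 3).filter (fun e => e z ≠ 0), tC i C e +
        ∑ e ∈ (C.piAntidiag 3).filter (fun e => e x ≠ 0), tC i C e := by
      unfold ZC
      rw [← Finset.sum_filter_add_sum_filter_not (C.piAntidiag 3) (fun e => e z ≠ 0)]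
      rw [← Finset.sum_filter_add_sum_filter_not ((C.piAntidiag 3).filter (fun e => ¬ e z ≠ 0))
        (fun e => e x ≠ 0), Finset.filter_filter, Finset.filter_filter]
      have e1 : ∑ e ∈ (C.piAntidiag 3).filter (fun e => ¬ e z ≠ 0 ∧ e x ≠ 0), tC i C e =
          ∑ e ∈ (C.piAntidiag 3).filter (fun e => e x ≠ 0), tC i C e := by
        refine Finset.sum_subset ?_ ?_
        · intro e he
          rw [mem_filter] at he ⊢
          exact ⟨he.1, he.2.2⟩
        · intro e he hne
          rw [mem_filter, mem_piA] at he
          have hez : e z ≠ 0 := by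
            by_contra h
            apply hne
            rw [mem_filter, mem_piA]
            exact ⟨he.1, fun h' => h' h, he.2⟩
          by_cases hA : AdmL i e
          · by_cases hB : AdmU i e
            · exfalso
              have h4 := pos_up H hA (z := z) (y := y) (by omega) (by omega) hzy
              have h5 := pos_dn H (by omega) hB (x := x) (y := u) (by omega) (by
                have := he.2
                omega) hux
              have h6 : ({z, y, x, u} : Finset P).card = 4 := by
                rw [Finset.card_insert_of_notMem, Finset.card_insert_of_notMem,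
                  Finset.card_insert_of_notMem, card_singleton]
                · rw [mem_singleton]
                  rintro rfl
                  omega
                · rw [mem_insert, mem_singleton, not_or]
                  refine ⟨?_, ?_⟩
                  · rintro rfl
                    omega
                  · rintro rfl
                    omega
                · rw [mem_insert, mem_insert, mem_singleton, not_or, not_or]
                  refine ⟨?_, ?_, ?_⟩
                  · rintro rfl
                    omega
                  · rintro rfl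
                    omega
                  · rintro rfl
                    omega
              have h7 : ∑ w ∈ ({z, y, x, u} : Finset P), e w ≤ ∑ w, e w :=
                Finset.sum_le_sum_of_subset (subset_univ _)
              have h8 : ({z, y, x, u} : Finset P).card ≤ ∑ w ∈ ({z, y, x, u} : Finset P), e w := by
                rw [Finset.card_eq_sum_ones]
                refine Finset.sum_le_sum fun w hw => ?_
                rw [mem_insert, mem_insert, mem_insert, mem_singleton] at hw
                have := he.2
                rcases hw with rfl | rfl | rfl | rfl <;> omega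
              have := he.1.1
              omega
            · exact tC_not_admU hB
          · exact tC_not_admL hA
      have e2 : (C.piAntidiag 3).filter (fun e => ¬ e z ≠ 0 ∧ ¬ e x ≠ 0) =
          (Dm i C).piAntidiag 3 := by
        ext e
        rw [mem_filter, mem_piA, mem_piA]
        constructor
        · rintro ⟨⟨h3, h4⟩, h5, h6⟩
          refine ⟨h3, fun w hw => ?_⟩
          by_contra hne
          have hwC : w ∈ C := by
            by_contra h
            exact hne (h4 w h)
          apply hw
          refine mem_Dm.2 ⟨hwC, fun h7 => ?_, fun h7 => ?_⟩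
          · rw [hz1 w hwC h7] at hne
            exact h5 hne
          · rw [hx1 w hwC h7] at hne
            exact h6 hne
        · rintro ⟨h3, h4⟩
          refine ⟨⟨h3, fun w hw => h4 w fun h => hw (mem_Dm.1 h).1⟩, ?_, ?_⟩
          · rw [not_not]
            exact h4 z fun h => (mem_Dm.1 h).2.1 hzP
          · rw [not_not]
            exact h4 x fun h => (mem_Dm.1 h).2.2 hxP
      rw [e1, e2]
      ring
    have hspt1 : ∀ v ∈ C, Spt C (cl z + sg v) := by
      intro v hv
      rw [spt_add_iff]
      exact ⟨spt_cl hC' hzC, fun w hw => ExpC_sg_ne (by rintro rfl; exact hw hv)⟩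
    have hspt2 : ∀ v ∈ C, Spt C (cu x + sg v) := by
      intro v hv
      rw [spt_add_iff]
      exact ⟨spt_cu hC' hxC (by omega), fun w hw => ExpC_sg_ne (by rintro rfl; exact hw hv)⟩
    rw [split_cl H lz hz, split_cu H (by omega) lx hx, Finset.filter_true_of_mem hspt1,
      Finset.filter_true_of_mem hspt2,
      low_class H (by omega) hC ly hz h2 lu hyu hzC (by
        intro z' hz' huc
        apply hz1 z' hz'
        unfold PD
        rw [mem_filter]
        refine ⟨mem_univ _, ?_, by rw [huc, card_singleton], y, ?_, h2⟩
        · have := lev_uc H (x := z') (v := y) (by rw [huc]; exact mem_singleton_self y)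
          omega
        · rw [← mem_uc, huc]
          exact mem_singleton_self y),
      upp_class H hi2 hC lu hx (by rw [hyu]; exact h2) ly hyu hxC (by
        intro x' hx' hdc
        apply hx1 x' hx'
        unfold PU
        rw [mem_filter]
        refine ⟨mem_univ _, ?_, by rw [hdc, card_singleton], u, ?_, by rw [hyu]; exact h2⟩
        · have := lev_dc H (x := x') (v := u) (by rw [hdc]; exact mem_singleton_self u)
          omega
        · rw [← mem_dc, hdc]
          exact mem_singleton_self u)] at hdec
    have hnear := near_class H hi hi2 (hg i (by omega) (by omega)) hC ly hz h2 lu hx hyu hzC hxC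
      hone
    have e4 : FL i C = FLo C z := by
      ext w
      rw [mem_FL, mem_FLo]
      constructor
      · rintro ⟨h3, z', h4, h5⟩
        refine ⟨h3, ?_⟩
        rw [← hz1 z' ?_ h4]
        · exact h5
        · refine hC.up h3 ?_
          rw [← mem_uc, h5]
          exact mem_singleton_self z'
      · rintro ⟨h3, h4⟩
        exact ⟨h3, z, hzP, h4⟩
    have e5 : FU' i C = FUp C x := by
      ext w
      rw [mem_FU', mem_FUp]
      constructor
      · rintro ⟨h3, z', h4, h5⟩
        refine ⟨h3, ?_⟩
        have hzw : z' ⋖ w := by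
          rw [← mem_dc, h5]
          exact mem_singleton_self z'
        have l1 := lev_uc H (mem_uc.2 hzw)
        have l2 := (lev_PU h4).1
        rw [← hx1 z' (hC.dn h3 (by omega) hzw) h4]
        exact h5
      · rintro ⟨h3, h4⟩
        exact ⟨h3, x, hxP, h4⟩
    rw [e4, e5, hdec]
    -- constants
    have hb2 : 2 ≤ (st i C).card := by
      rw [← h2]
      apply card_le_card
      intro v hv
      have := lev_uc H hv
      exact mem_st.2 ⟨hC.up hyC (mem_uc.1 hv), by omega⟩
    have hcast : (((st i C).card - 2 : ℕ) : A) = ((st i C).card : A) - 2 := by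
      rw [Nat.cast_sub hb2]
      norm_num
    have hpow : dd ^ (st i C).card = dd * dd ^ ((st i C).card - 1) := by
      rw [← pow_succ']
      congr 1
      omega
    have hk : dd ^ (st i C).card ∣ ((xx ^ 3 + xi ^ 2) + (((st i C).card : A) - 1) * (xx ^ 2 + xi) +
        2 * (1 + xx)) * dd ^ ((st i C).card - 1) := by
      rw [hpow]
      refine mul_dvd_mul (dvd_add (dvd_add dd_dvd_3 ?_) ?_) dvd_rfl
      · exact Dvd.dvd.mul_left dd_dvd_2 _
      · exact Dvd.dvd.mul_left dd_dvd_1 _
    have htot := dvd_add (dvd_add hbase hnear) hk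
    rw [hcast]
    convert htot using 1
    ring

/-- THE VALUE OF (3,1) -/
theorem al3_val (H : Gr P r) (hi : 1 ≤ i) (hi2 : i + 1 ≤ r)
    (hg : ∀ m, i ≤ m + 1 → m ≤ i + 1 → Good P m) {C : Finset P} (hC : Part (i + 1) C)
    (hb : 1 ≤ (st i C).card) (hM : Mtc i C) :
    I2.al 3 (st i C).card (ZS i C) =
      (ZU i C).card - (ZL i C).card + (FL i C).card - (FU' i C).card := by
  have h1 := val3 H hi hi2 hg hC hb hM
  obtain ⟨q, hq⟩ := h1
  set κ : A := ((ZL i C).card : A) * xx ^ 3 + ((ZU i C).card : A) * xi ^ 2 +
        ((FL i C).card : A) * xx ^ 2 + ((FU' i C).card : A) * xi with hκ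
  have h2 : dd * ZC i C 3 = dd ^ (st i C).card * (κ + dd * q) := by
    have h3 : ZC i C 3 = κ * dd ^ ((st i C).card - 1) + dd ^ (st i C).card * q := by
      rw [← hq]
      ring
    have hpow : dd ^ (st i C).card = dd * dd ^ ((st i C).card - 1) := by
      rw [← pow_succ']
      congr 1
      omega
    rw [h3]
    calc dd * (κ * dd ^ ((st i C).card - 1) + dd ^ (st i C).card * q)
        = κ * (dd * dd ^ ((st i C).card - 1)) + dd ^ (st i C).card * (dd * q) := by ring
      _ = _ := by rw [← hpow]; ring
  unfold I2.al
  rw [coeff_ZS, h2]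
  unfold dd
  have h4 := PowerSeries.coeff_X_pow_mul (κ + PowerSeries.X * q) (st i C).card 0
  rw [zero_add] at h4
  rw [h4, PowerSeries.coeff_zero_eq_constantCoeff, map_add, map_mul, PowerSeries.constantCoeff_X,
    zero_mul, add_zero, hκ]
  simp only [map_add, map_mul, map_pow, cc_xx, cc_xi, map_natCast]
  norm_num
  ring

end Pool.Agent.GaussPoset.Win
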