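import Pool.Agent.W_448al_h63.LH
import Pool.Agent.W_448cr_h63.CH

/-! The value of (3,1) in letters: the counts in coordinates. -/

namespace Pool.Agent.GaussPoset.Win

set_option linter.unusedSectionVars false

open Finset

universe u

variable {P : Type u} [Fintype P] [PartialOrder P] [DecidableEq P] {r j i : ℕ}
variable {t : P} {lo hi : ℕ → ℕ} {x : ℕ → ℕ → P}

/-- the single upper cover in coordinates -/
lemma Comp.uc_single (C : Comp P t j lo hi x) (h : GoodTo P r j) (ht : lev t = 0) {k a b : ℕ}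
    (hk : k < j) (h1 : lo (k + 1) ≤ a) (h2 : a ≤ hi (k + 1)) (h3 : lo k ≤ b) (h4 : b ≤ hi k) :
    uc (x (k + 1) a) = {x k b} ↔ (b = a ∧ a = lo k) ∨ (b + 1 = a ∧ b = hi k) := by
  have e1 := C.lo_le k hk
  have e2 := C.hi_ge k hk
  constructor
  · intro hu
    have hc : (uc (x (k + 1) a)).card = 1 := by rw [hu, card_singleton]
    have hn : ¬ (lo k < a ∧ a ≤ hi k) := by
      rw [← C.uc_two h ht hk h1 h2]
      omega
    have hb : x (k + 1) a ⋖ x k b := by rw [← mem_uc, hu]; exact mem_singleton_self _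
    have := (C.cov k hk a b h1 h2 h3 h4).1 hb
    omega
  · intro hcase
    have hb : x (k + 1) a ⋖ x k b := (C.cov k hk a b h1 h2 h3 h4).2 (by omega)
    have hn : ¬ (uc (x (k + 1) a)).card = 2 := by
      rw [C.uc_two h ht hk h1 h2]
      omega
    have hc : (uc (x (k + 1) a)).card = 1 := by
      rcases uc_card_cases h.H (x := x (k + 1) a)
        (by rw [C.lev_x (k + 1) hk a h1 h2]; omega) with h5 | h5
      · exact h5
      · exact absurd h5 hn
    obtain ⟨v, hv⟩ := Finset.card_eq_one.1 hc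
    have h5 : x k b ∈ uc (x (k + 1) a) := mem_uc.2 hb
    rw [hv, mem_singleton] at h5
    rw [hv, h5]

/-- the single lower cover in coordinates -/
lemma Comp.dc_single (C : Comp P t j lo hi x) (h : GoodTo P r j) (ht : lev t = 0) {k a b : ℕ}
    (hk : k < j) (h1 : lo (k + 1) ≤ a) (h2 : a ≤ hi (k + 1)) (h3 : lo k ≤ b) (h4 : b ≤ hi k) :
    dc (x k b) = {x (k + 1) a} ↔ (a = b ∧ b = hi (k + 1)) ∨ (a = b + 1 ∧ a = lo (k + 1)) := by
  have e1 := C.lo_ge k hk
  have e2 := C.hi_le k hk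
  constructor
  · intro hu
    have hc : (dc (x k b)).card = 1 := by rw [hu, card_singleton]
    have hn : ¬ (lo (k + 1) ≤ b ∧ b + 1 ≤ hi (k + 1)) := by
      rw [← C.dc_two h ht hk h3 h4]
      omega
    have hb : x (k + 1) a ⋖ x k b := by rw [← mem_dc, hu]; exact mem_singleton_self _
    have := (C.cov k hk a b h1 h2 h3 h4).1 hb
    omega
  · intro hcase
    have hb : x (k + 1) a ⋖ x k b := (C.cov k hk a b h1 h2 h3 h4).2 (by omega)
    have hn : ¬ (dc (x k b)).card = 2 := by
      rw [C.dc_two h ht hk h3 h4]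
      omega
    have hc : (dc (x k b)).card = 1 := by
      rcases dc_card_cases h.H hb with h5 | h5
      · exact h5
      · exact absurd h5 hn
    obtain ⟨v, hv⟩ := Finset.card_eq_one.1 hc
    have h5 : x (k + 1) a ∈ dc (x k b) := mem_dc.2 hb
    rw [hv, mem_singleton] at h5
    rw [hv, h5]

/-- two levels: order in coordinates -/
lemma Comp.lt_two (C : Comp P t j lo hi x) (h : GoodTo P r j) (ht : lev t = 0) {k a c : ℕ}
    (hk : k + 2 ≤ j) (h1 : lo (k + 2) ≤ a) (h2 : a ≤ hi (k + 2)) (h3 : lo k ≤ c) (h4 : c ≤ hi k) :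
    x (k + 2) a < x k c ↔ c ≤ a ∧ a ≤ c + 2 := by
  have e1 := C.lo_le k (by omega)
  have e2 := C.lo_ge k (by omega)
  have e3 := C.hi_le k (by omega)
  have e4 := C.hi_ge k (by omega)
  have e5 : lo (k + 1) ≤ lo (k + 2) := C.lo_le (k + 1) (by omega)
  have e6 : lo (k + 2) ≤ lo (k + 1) + 1 := C.lo_ge (k + 1) (by omega)
  have e7 : hi (k + 1) ≤ hi (k + 2) := C.hi_le (k + 1) (by omega)
  have e8 : hi (k + 2) ≤ hi (k + 1) + 1 := C.hi_ge (k + 1) (by omega)
  have e9 := C.lohi (k + 1) (by omega)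
  have hl1 := C.lev_x (k + 2) hk a h1 h2
  have hl2 := C.lev_x k (by omega) c h3 h4
  constructor
  · intro hlt
    obtain ⟨w, hw1, hw2⟩ := exists_covBy_le_of_lt hlt
    obtain ⟨b, b1, b2, b3, rfl⟩ := (C.uc_iff h ht (k := k + 1) (by omega) h1 h2).1 hw1
    have hl3 := C.lev_x (k + 1) (by omega) b b1 b2
    have hcov : x (k + 1) b ⋖ x k c := by
      rw [h.H.covBy_iff]
      refine ⟨lt_of_le_of_ne hw2 ?_, by omega⟩
      intro he
      rw [he, hl2] at hl3
      omega
    have := (C.cov k (by omega) b c b1 b2 h3 h4).1 hcov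
    omega
  · rintro ⟨h5, h6⟩
    have key : ∀ b, lo (k + 1) ≤ b → b ≤ hi (k + 1) → (b = a ∨ b + 1 = a) →
        (c = b ∨ c + 1 = b) → x (k + 2) a < x k c := by
      intro b b1 b2 b3 b4
      have g1 := (C.cov (k + 1) (by omega) a b h1 h2 b1 b2).2 b3
      have g2 := (C.cov k (by omega) b c b1 b2 h3 h4).2 b4
      exact g1.lt.trans g2.lt
    rcases Nat.lt_trichotomy (c + 1) a with h7 | h7 | h7
    · exact key (a - 1) (by omega) (by omega) (by omega) (by omega)
    · rcases Nat.lt_or_ge (hi (k + 1)) a with h8 | h8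
      · exact key (a - 1) (by omega) (by omega) (by omega) (by omega)
      · exact key a (by omega) (by omega) (by omega) (by omega)
    · exact key a (by omega) (by omega) (by omega) (by omega)

/-- elements with three sites above -/
lemma Comp.up_three (C : Comp P t j lo hi x) (h : GoodTo P r j) (ht : lev t = 0) {a : ℕ}
    (hk : i + 2 ≤ j) (h1 : lo (i + 2) ≤ a) (h2 : a ≤ hi (i + 2)) :
    up i (x (i + 2) a) = 3 ↔ lo i + 2 ≤ a ∧ a ≤ hi i := by
  classical
  have hle := C.le_t (i + 2) hk a h1 h2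
  have hs : sts i (x (i + 2) a) =
      ((Finset.Icc (lo i) (hi i)).filter (fun c => c ≤ a ∧ a ≤ c + 2)).image (x i) := by
    ext v
    rw [mem_sts, mem_image]
    constructor
    · rintro ⟨hv, hlt⟩
      have hvt : v ≤ t := by
        obtain ⟨s, hs1, hs2⟩ := exists_above' (x := v) (j := 0) (Nat.zero_le _)
        rw [h.top_eq (x := x (i + 2) a) (by rw [C.lev_x (i + 2) hk a h1 h2]; exact hk) ht hs2 hle
          (hlt.le.trans hs1)]
        exact hs1
      obtain ⟨c, c1, c2, rfl⟩ := C.surj i (by omega) v hv hvt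
      exact ⟨c, mem_filter.2 ⟨Finset.mem_Icc.2 ⟨c1, c2⟩,
        (C.lt_two h ht hk h1 h2 c1 c2).1 hlt⟩, rfl⟩
    · rintro ⟨c, hc, rfl⟩
      rw [mem_filter, Finset.mem_Icc] at hc
      exact ⟨C.lev_x i (by omega) c hc.1.1 hc.1.2, (C.lt_two h ht hk h1 h2 hc.1.1 hc.1.2).2 hc.2⟩
  rw [← card_sts, hs, Finset.card_image_of_injOn]
  · have hf : (Finset.Icc (lo i) (hi i)).filter (fun c => c ≤ a ∧ a ≤ c + 2) =
        Finset.Icc (max (lo i) (a - 2)) (min (hi i) a) := by
      ext c
      rw [mem_filter, Finset.mem_Icc, Finset.mem_Icc]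
      omega
    rw [hf, Nat.card_Icc]
    omega
  · intro c hc c' hc' he
    rw [mem_coe, mem_filter, Finset.mem_Icc] at hc hc'
    exact C.inj' (by omega) hc.1.1 hc.1.2 hc'.1.1 hc'.1.2 he

/-- elements with three sites below -/
lemma Comp.dn_three (C : Comp P t j lo hi x) (h : GoodTo P r j) (ht : lev t = 0) {k c : ℕ}
    (hk : k + 2 ≤ j) (h1 : lo k ≤ c) (h2 : c ≤ hi k) :
    dn (k + 2) (x k c) = 3 ↔ lo (k + 2) ≤ c ∧ c + 2 ≤ hi (k + 2) := by
  classical
  have hle := C.le_t k (by omega) c h1 h2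
  have hs : stD (k + 2) (x k c) =
      ((Finset.Icc (lo (k + 2)) (hi (k + 2))).filter (fun a => c ≤ a ∧ a ≤ c + 2)).image
        (x (k + 2)) := by
    ext v
    rw [mem_stD, mem_image]
    constructor
    · rintro ⟨hv, hlt⟩
      obtain ⟨a, a1, a2, rfl⟩ := C.surj (k + 2) hk v hv (hlt.le.trans hle)
      exact ⟨a, mem_filter.2 ⟨Finset.mem_Icc.2 ⟨a1, a2⟩,
        (C.lt_two h ht hk a1 a2 h1 h2).1 hlt⟩, rfl⟩
    · rintro ⟨a, ha, rfl⟩
      rw [mem_filter, Finset.mem_Icc] at ha
      exact ⟨C.lev_x (k + 2) hk a ha.1.1 ha.1.2, (C.lt_two h ht hk ha.1.1 ha.1.2 h1 h2).2 ha.2⟩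
  rw [← card_stD, hs, Finset.card_image_of_injOn]
  · have hf : (Finset.Icc (lo (k + 2)) (hi (k + 2))).filter (fun a => c ≤ a ∧ a ≤ c + 2) =
        Finset.Icc (max (lo (k + 2)) c) (min (hi (k + 2)) (c + 2)) := by
      ext a
      rw [mem_filter, Finset.mem_Icc, Finset.mem_Icc]
      omega
    rw [hf, Nat.card_Icc]
    omega
  · intro a ha a' ha' he
    rw [mem_coe, mem_filter, Finset.mem_Icc] at ha ha'
    exact C.inj' hk ha.1.1 ha.1.2 ha'.1.1 ha'.1.2 he

section counts

variable {S : Finset P}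

/-- the number of twisted lower triples -/
lemma Comp.card_ZL (C : Comp P t j lo hi x) (h : GoodTo P r j) (ht : lev t = 0)
    (hk : i + 2 ≤ j) (hS : ∀ y, lev y ≤ i + 2 → (y ∈ S ↔ y ≤ t)) :
    (ZL i S).card = hi i - (lo i + 1) := by
  classical
  have e1 := C.lo_ge i (by omega)
  have e3 := C.hi_le i (by omega)
  have e6 : lo (i + 2) ≤ lo (i + 1) + 1 := C.lo_ge (i + 1) (by omega)
  have e7 : hi (i + 1) ≤ hi (i + 2) := C.hi_le (i + 1) (by omega)
  have hs : ZL i S = (Finset.Icc (lo i + 2) (hi i)).image (x (i + 2)) := by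
    ext z
    rw [mem_ZL, mem_image]
    constructor
    · rintro ⟨hz, hl, h3⟩
      have hzt := (hS z (by omega)).1 hz
      obtain ⟨a, a1, a2, rfl⟩ := C.surj (i + 2) hk z hl hzt
      exact ⟨a, Finset.mem_Icc.2 ((C.up_three h ht hk a1 a2).1 h3), rfl⟩
    · rintro ⟨a, ha, rfl⟩
      rw [Finset.mem_Icc] at ha
      have a1 : lo (i + 2) ≤ a := by omega
      have a2 : a ≤ hi (i + 2) := by omega
      have hl := C.lev_x (i + 2) hk a a1 a2
      exact ⟨(hS _ (by omega)).2 (C.le_t (i + 2) hk a a1 a2), hl,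
        (C.up_three h ht hk a1 a2).2 ha⟩
  rw [hs, Finset.card_image_of_injOn, Nat.card_Icc]
  · omega
  · intro a ha a' ha' he
    rw [mem_coe, Finset.mem_Icc] at ha ha'
    exact C.inj' hk (by omega) (by omega) (by omega) (by omega) he

/-- the number of twisted upper triples -/
lemma Comp.card_ZU (C : Comp P t j lo hi x) (h : GoodTo P r j) (ht : lev t = 0)
    (hi1 : 1 ≤ i) (hk : i ≤ j) (hS : ∀ y, lev y ≤ i → (y ∈ S ↔ y ≤ t)) :
    (ZU i S).card = hi i - (lo i + 1) := by
  classical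
  rcases Nat.lt_or_ge i 2 with hi2 | hi2
  · obtain rfl : i = 1 := by omega
    have h1 := C.hi_bd 1 hk
    have h2 : ZU 1 S = ∅ := by
      rw [Finset.eq_empty_iff_forall_notMem]
      intro z hz
      have := (mem_ZU.1 hz).2.1
      omega
    rw [h2, card_empty]
    omega
  · obtain ⟨k, rfl⟩ : ∃ k, i = k + 2 := ⟨i - 2, by omega⟩
    have e1 := C.lo_le k (by omega)
    have e3 := C.hi_ge k (by omega)
    have e6 : lo (k + 1) ≤ lo (k + 2) := C.lo_le (k + 1) (by omega)
    have e7 : hi (k + 2) ≤ hi (k + 1) + 1 := C.hi_ge (k + 1) (by omega)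
    have hs : ZU (k + 2) S = ((Finset.Icc (lo (k + 2) + 2) (hi (k + 2))).image
        (fun a => x k (a - 2))) := by
      ext z
      rw [mem_ZU, mem_image]
      constructor
      · rintro ⟨hz, hl, h3⟩
        have hl' : lev z = k := by omega
        have hzt := (hS z (by omega)).1 hz
        obtain ⟨a, a1, a2, rfl⟩ := C.surj k (by omega) z hl' hzt
        have h4 := (C.dn_three h ht hk a1 a2).1 h3
        refine ⟨a + 2, Finset.mem_Icc.2 (by omega), ?_⟩
        rw [Nat.add_sub_cancel]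
      · rintro ⟨a, ha, rfl⟩
        rw [Finset.mem_Icc] at ha
        have a1 : lo k ≤ a - 2 := by omega
        have a2 : a - 2 ≤ hi k := by omega
        have hl := C.lev_x k (by omega) _ a1 a2
        exact ⟨(hS _ (by omega)).2 (C.le_t k (by omega) _ a1 a2), by omega,
          (C.dn_three h ht hk a1 a2).2 (by omega)⟩
    rw [hs, Finset.card_image_of_injOn, Nat.card_Icc]
    · omega
    · intro a ha a' ha' he
      rw [mem_coe, Finset.mem_Icc] at ha ha'
      have h5 := C.inj' (k := k) (by omega) (by omega) (by omega) (by omega) (by omega)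
        (show x k (a - 2) = x k (a' - 2) from he)
      omega

end counts

end Pool.Agent.GaussPoset.Win
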