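import Pool.Agent.W_448al_h63.LI

/-! The value of (3,1) in letters: the end patterns and the final formula. -/

namespace Pool.Agent.GaussPoset.Win

set_option linter.unusedSectionVars false

open Finset

universe u

variable {P : Type u} [Fintype P] [PartialOrder P] [DecidableEq P] {r j i : ℕ}
variable {t : P} {lo hi : ℕ → ℕ} {x : ℕ → ℕ → P}

/-- left pendant pattern below the window: letters C, O -/
def pdL (lo hi : ℕ → ℕ) (i : ℕ) : Prop :=
  lo (i + 1) = lo i + 1 ∧ lo (i + 2) = lo (i + 1) ∧ lo i < hi i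

/-- right pendant pattern below the window: letters C, O -/
def pdR (lo hi : ℕ → ℕ) (i : ℕ) : Prop :=
  hi (i + 1) = hi i ∧ hi (i + 2) = hi (i + 1) + 1 ∧ lo i < hi i

/-- left pendant pattern above the window: letters C, O -/
def puL (lo hi : ℕ → ℕ) (i : ℕ) : Prop :=
  2 ≤ i ∧ lo (i - 1) = lo (i - 2) + 1 ∧ lo i = lo (i - 1) ∧ lo i < hi i

/-- right pendant pattern above the window: letters C, O -/
def puR (lo hi : ℕ → ℕ) (i : ℕ) : Prop :=
  2 ≤ i ∧ hi (i - 1) = hi (i - 2) ∧ hi i = hi (i - 1) + 1 ∧ lo i < hi i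

instance (lo hi : ℕ → ℕ) (i : ℕ) : Decidable (pdL lo hi i) := by unfold pdL; infer_instance
instance (lo hi : ℕ → ℕ) (i : ℕ) : Decidable (pdR lo hi i) := by unfold pdR; infer_instance
instance (lo hi : ℕ → ℕ) (i : ℕ) : Decidable (puL lo hi i) := by unfold puL; infer_instance
instance (lo hi : ℕ → ℕ) (i : ℕ) : Decidable (puR lo hi i) := by unfold puR; infer_instance

/-- number of patterns COO below the window -/
def flw (lo hi : ℕ → ℕ) (i : ℕ) : ℕ :=
  (if lo (i + 3) = lo (i + 2) ∧ (pdL lo hi i ∨ (pdR lo hi i ∧ lo (i + 2) = hi (i + 2)))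
    then 1 else 0) +
  (if hi (i + 3) = hi (i + 2) + 1 ∧ (pdR lo hi i ∨ (pdL lo hi i ∧ lo (i + 2) = hi (i + 2)))
    then 1 else 0)

/-- number of patterns OCC above the window -/
def fuw (lo hi : ℕ → ℕ) (i : ℕ) : ℕ :=
  (if 3 ≤ i ∧ lo (i - 2) = lo (i - 3) + 1 ∧ (puL lo hi i ∨ (puR lo hi i ∧ lo (i - 2) = hi (i - 2)))
    then 1 else 0) +
  (if 3 ≤ i ∧ hi (i - 2) = hi (i - 3) ∧ (puR lo hi i ∨ (puL lo hi i ∧ lo (i - 2) = hi (i - 2)))
    then 1 else 0)

/-- `PD` in coordinates -/
lemma Comp.mem_PD_iff (C : Comp P t j lo hi x) (h : GoodTo P r j) (ht : lev t = 0)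
    (hk : i + 2 ≤ j) {c : ℕ} (c1 : lo (i + 2) ≤ c) (c2 : c ≤ hi (i + 2)) :
    x (i + 2) c ∈ PD P i ↔ (c = lo (i + 2) ∧ pdL lo hi i) ∨ (c = hi (i + 2) ∧ pdR lo hi i) := by
  have e0 := C.lohi (i + 2) hk
  constructor
  · intro hz
    obtain ⟨h1, h2⟩ := C.PD_cases h ht hk hz (C.le_t (i + 2) hk c c1 c2)
    rcases h2 with ⟨h3, h4, h5, -⟩ | ⟨h3, h4, h5, -⟩
    · left
      exact ⟨C.inj' hk c1 c2 le_rfl e0 h5, h3, h4, h1⟩
    · right
      exact ⟨C.inj' hk c1 c2 e0 le_rfl h5, h3, h4, h1⟩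
  · rintro (⟨rfl, h3, h4, h1⟩ | ⟨rfl, h3, h4, h1⟩)
    · exact C.PD_left h ht hk h3 h4 h1
    · exact C.PD_right h ht hk h3 h4 h1

/-- `PU` in coordinates -/
lemma Comp.mem_PU_iff (C : Comp P t j lo hi x) (h : GoodTo P r j) (ht : lev t = 0) {k : ℕ}
    (hk : k + 2 ≤ j) {c : ℕ} (c1 : lo k ≤ c) (c2 : c ≤ hi k) :
    x k c ∈ PU P (k + 2) ↔
      (c = lo k ∧ puL lo hi (k + 2)) ∨ (c = hi k ∧ puR lo hi (k + 2)) := by
  have e0 := C.lohi k (by omega)
  have i1 : k + 2 - 1 = k + 1 := by omega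
  have i2 : k + 2 - 2 = k := by omega
  unfold puL puR
  rw [i1, i2]
  constructor
  · intro hz
    obtain ⟨h1, h2⟩ := C.PU_cases h ht hk hz (C.le_t k (by omega) c c1 c2)
    rcases h2 with ⟨h3, h4, h5, -⟩ | ⟨h3, h4, h5, -⟩
    · left
      exact ⟨C.inj' (by omega) c1 c2 le_rfl e0 h5, by omega, h3, h4, by omega⟩
    · right
      exact ⟨C.inj' (by omega) c1 c2 e0 le_rfl h5, by omega, h3, h4, by omega⟩
  · rintro (⟨rfl, -, h3, h4, h1⟩ | ⟨rfl, -, h3, h4, h1⟩)
    · exact C.PU_left h ht hk h3 h4 (by omega)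
    · exact C.PU_right h ht hk h3 h4 (by omega)

section counts

variable {S : Finset P}

/-- the number of elements of level `i + 3` below `PD` only -/
lemma Comp.card_FL (C : Comp P t j lo hi x) (h : GoodTo P r j) (ht : lev t = 0)
    (hk : i + 3 ≤ j) (hS : ∀ y, lev y ≤ i + 3 → (y ∈ S ↔ y ≤ t)) :
    (FL i S).card = flw lo hi i := by
  classical
  have e5 : lo (i + 2) ≤ lo (i + 3) := C.lo_le (i + 2) (by omega)
  have e6 : lo (i + 3) ≤ lo (i + 2) + 1 := C.lo_ge (i + 2) (by omega)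
  have e7 : hi (i + 2) ≤ hi (i + 3) := C.hi_le (i + 2) (by omega)
  have e8 : hi (i + 3) ≤ hi (i + 2) + 1 := C.hi_ge (i + 2) (by omega)
  have e9 := C.lohi (i + 2) (by omega)
  have e10 := C.lohi (i + 3) (by omega)
  -- the two candidates
  have hmem : ∀ a, lo (i + 3) ≤ a → a ≤ hi (i + 3) → (x (i + 3) a ∈ FL i S ↔
      (a = lo (i + 2) ∧ (pdL lo hi i ∨ (pdR lo hi i ∧ lo (i + 2) = hi (i + 2)))) ∨
      (a = hi (i + 2) + 1 ∧ (pdR lo hi i ∨ (pdL lo hi i ∧ lo (i + 2) = hi (i + 2))))) := by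
    intro a a1 a2
    have hla := C.lev_x (i + 3) hk a a1 a2
    have hlt := C.le_t (i + 3) hk a a1 a2
    rw [mem_FL]
    constructor
    · rintro ⟨-, z, hz, hu⟩
      have hz2 := lev_PD hz
      have hcov : x (i + 3) a ⋖ z := by rw [← mem_uc, hu]; exact mem_singleton_self z
      have hzt : z ≤ t := h.cov_le (by rw [hla]; exact hk) ht hlt hcov
      obtain ⟨c, c1, c2, rfl⟩ := C.surj (i + 2) (by omega) z hz2.1 hzt
      have h5 := (C.uc_single h ht (k := i + 2) (by omega) a1 a2 c1 c2).1 hu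
      have h6 := (C.mem_PD_iff h ht (by omega) c1 c2).1 hz
      rcases h5 with ⟨h5, h5'⟩ | ⟨h5, h5'⟩
      · left
        refine ⟨h5', ?_⟩
        rcases h6 with ⟨h6, h7⟩ | ⟨h6, h7⟩
        · exact Or.inl h7
        · exact Or.inr ⟨h7, by omega⟩
      · right
        refine ⟨by omega, ?_⟩
        rcases h6 with ⟨h6, h7⟩ | ⟨h6, h7⟩
        · exact Or.inr ⟨h7, by omega⟩
        · exact Or.inl h7
    · intro hcase
      refine ⟨(hS _ (by omega)).2 hlt, ?_⟩
      rcases hcase with ⟨h5, h6⟩ | ⟨h5, h6⟩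
      · refine ⟨x (i + 2) (lo (i + 2)), ?_, ?_⟩
        · rw [C.mem_PD_iff h ht (by omega) le_rfl e9]
          rcases h6 with h6 | ⟨h6, h7⟩
          · exact Or.inl ⟨rfl, h6⟩
          · exact Or.inr ⟨h7, h6⟩
        · rw [C.uc_single h ht (k := i + 2) (by omega) a1 a2 le_rfl e9]
          exact Or.inl ⟨h5.symm, h5⟩
      · refine ⟨x (i + 2) (hi (i + 2)), ?_, ?_⟩
        · rw [C.mem_PD_iff h ht (by omega) e9 le_rfl]
          rcases h6 with h6 | ⟨h6, h7⟩
          · exact Or.inr ⟨rfl, h6⟩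
          · exact Or.inl ⟨h7.symm, h6⟩
        · rw [C.uc_single h ht (k := i + 2) (by omega) a1 a2 e9 le_rfl]
          exact Or.inr ⟨h5.symm, rfl⟩
  have hs : FL i S = ((if lo (i + 3) = lo (i + 2) ∧
        (pdL lo hi i ∨ (pdR lo hi i ∧ lo (i + 2) = hi (i + 2))) then {lo (i + 2)} else ∅ :
          Finset ℕ) ∪
      (if hi (i + 3) = hi (i + 2) + 1 ∧
        (pdR lo hi i ∨ (pdL lo hi i ∧ lo (i + 2) = hi (i + 2))) then {hi (i + 2) + 1} else ∅ :
          Finset ℕ)).image (x (i + 3)) := by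
    ext w
    rw [mem_image]
    constructor
    · intro hw
      have hw' := mem_FL.1 hw
      obtain ⟨hwS, z, hz, hu⟩ := hw'
      have hz2 := lev_PD hz
      have hl := lev_uc h.H (x := w) (v := z) (by rw [hu]; exact mem_singleton_self z)
      have hlw : lev w = i + 3 := by omega
      obtain ⟨a, a1, a2, rfl⟩ := C.surj (i + 3) hk w hlw ((hS w (by omega)).1 hwS)
      refine ⟨a, ?_, rfl⟩
      rw [mem_union]
      rcases (hmem a a1 a2).1 hw with ⟨h5, h6⟩ | ⟨h5, h6⟩
      · left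
        rw [if_pos ⟨by omega, h6⟩, mem_singleton]
        exact h5
      · right
        rw [if_pos ⟨by omega, h6⟩, mem_singleton]
        exact h5
    · rintro ⟨a, ha, rfl⟩
      rw [mem_union] at ha
      rcases ha with ha | ha
      · split_ifs at ha with hc
        · rw [mem_singleton] at ha
          exact (hmem a (by omega) (by omega)).2 (Or.inl ⟨ha, hc.2⟩)
        · exact absurd ha (Finset.notMem_empty _)
      · split_ifs at ha with hc
        · rw [mem_singleton] at ha
          exact (hmem a (by omega) (by omega)).2 (Or.inr ⟨ha, hc.2⟩)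
        · exact absurd ha (Finset.notMem_empty _)
  have hrange : ∀ a ∈ ((if lo (i + 3) = lo (i + 2) ∧
        (pdL lo hi i ∨ (pdR lo hi i ∧ lo (i + 2) = hi (i + 2))) then {lo (i + 2)} else ∅ :
          Finset ℕ) ∪
      (if hi (i + 3) = hi (i + 2) + 1 ∧
        (pdR lo hi i ∨ (pdL lo hi i ∧ lo (i + 2) = hi (i + 2))) then {hi (i + 2) + 1} else ∅ :
          Finset ℕ)), lo (i + 3) ≤ a ∧ a ≤ hi (i + 3) := by
    intro a ha
    rw [mem_union] at ha
    rcases ha with ha | ha
    · split_ifs at ha with hc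
      · rw [mem_singleton] at ha
        omega
      · exact absurd ha (Finset.notMem_empty _)
    · split_ifs at ha with hc
      · rw [mem_singleton] at ha
        omega
      · exact absurd ha (Finset.notMem_empty _)
  rw [hs, Finset.card_image_of_injOn, Finset.card_union_of_disjoint]
  · unfold flw
    congr 1
    · split_ifs
      · exact card_singleton _
      · exact card_empty
    · split_ifs
      · exact card_singleton _
      · exact card_empty
  · rw [Finset.disjoint_left]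
    intro a ha ha'
    split_ifs at ha ha'
    · rw [mem_singleton] at ha ha'
      omega
    all_goals simp at ha ha'
  · intro a ha a' ha' he
    have g1 := hrange a (mem_coe.1 ha)
    have g2 := hrange a' (mem_coe.1 ha')
    exact C.inj' hk g1.1 g1.2 g2.1 g2.2 he

/-- the number of elements of level `i - 3` above `PU` only -/
lemma Comp.card_FU (C : Comp P t j lo hi x) (h : GoodTo P r j) (ht : lev t = 0)
    (hk : i ≤ j) (hS : ∀ y, lev y ≤ i → (y ∈ S ↔ y ≤ t)) :
    (FU' i S).card = fuw lo hi i := by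
  classical
  rcases Nat.lt_or_ge i 3 with hi3 | hi3
  · have h1 : FU' i S = ∅ := by
      rw [Finset.eq_empty_iff_forall_notMem]
      intro w hw
      obtain ⟨-, z, hz, hd⟩ := mem_FU'.1 hw
      have h2 := lev_PU hz
      have h3 := lev_dc h.H (x := w) (v := z) (by rw [hd]; exact mem_singleton_self z)
      omega
    rw [h1, card_empty]
    unfold fuw
    rw [if_neg (by omega), if_neg (by omega)]
  obtain ⟨k, rfl⟩ : ∃ k, i = k + 3 := ⟨i - 3, by omega⟩
  have e5 : lo k ≤ lo (k + 1) := C.lo_le k (by omega)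
  have e6 : lo (k + 1) ≤ lo k + 1 := C.lo_ge k (by omega)
  have e7 : hi k ≤ hi (k + 1) := C.hi_le k (by omega)
  have e8 : hi (k + 1) ≤ hi k + 1 := C.hi_ge k (by omega)
  have e9 := C.lohi (k + 1) (by omega)
  have e10 := C.lohi k (by omega)
  -- the two candidates
  have hmem : ∀ a, lo k ≤ a → a ≤ hi k → (x k a ∈ FU' (k + 3) S ↔
      (a + 1 = lo (k + 1) ∧ (puL lo hi (k + 3) ∨ (puR lo hi (k + 3) ∧ lo (k + 1) = hi (k + 1)))) ∨
      (a = hi (k + 1) ∧ (puR lo hi (k + 3) ∨ (puL lo hi (k + 3) ∧ lo (k + 1) = hi (k + 1))))) := by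
    intro a a1 a2
    have hla := C.lev_x k (by omega) a a1 a2
    have hlt := C.le_t k (by omega) a a1 a2
    rw [mem_FU']
    constructor
    · rintro ⟨-, z, hz, hu⟩
      have hz2 := lev_PU hz
      have hcov : z ⋖ x k a := by rw [← mem_dc, hu]; exact mem_singleton_self z
      have hzt : z ≤ t := hcov.le.trans hlt
      obtain ⟨c, c1, c2, rfl⟩ := C.surj (k + 1) (by omega) z (by omega) hzt
      have h5 := (C.dc_single h ht (k := k) (by omega) c1 c2 a1 a2).1 hu
      have h6 := (C.mem_PU_iff h ht (k := k + 1) (by omega) c1 c2).1 hz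
      rcases h5 with ⟨h5, h5'⟩ | ⟨h5, h5'⟩
      · right
        refine ⟨by omega, ?_⟩
        rcases h6 with ⟨h6, h7⟩ | ⟨h6, h7⟩
        · exact Or.inr ⟨h7, by omega⟩
        · exact Or.inl h7
      · left
        refine ⟨by omega, ?_⟩
        rcases h6 with ⟨h6, h7⟩ | ⟨h6, h7⟩
        · exact Or.inl h7
        · exact Or.inr ⟨h7, by omega⟩
    · intro hcase
      refine ⟨(hS _ (by omega)).2 hlt, ?_⟩
      rcases hcase with ⟨h5, h6⟩ | ⟨h5, h6⟩
      · refine ⟨x (k + 1) (lo (k + 1)), ?_, ?_⟩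
        · have := C.mem_PU_iff h ht (k := k + 1) (by omega) le_rfl e9
          rw [this]
          rcases h6 with h6 | ⟨h6, h7⟩
          · exact Or.inl ⟨rfl, h6⟩
          · exact Or.inr ⟨h7, h6⟩
        · rw [C.dc_single h ht (k := k) (by omega) le_rfl e9 a1 a2]
          exact Or.inr ⟨by omega, rfl⟩
      · refine ⟨x (k + 1) (hi (k + 1)), ?_, ?_⟩
        · have := C.mem_PU_iff h ht (k := k + 1) (by omega) e9 le_rfl
          rw [this]
          rcases h6 with h6 | ⟨h6, h7⟩
          · exact Or.inr ⟨rfl, h6⟩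
          · exact Or.inl ⟨h7.symm, h6⟩
        · rw [C.dc_single h ht (k := k) (by omega) e9 le_rfl a1 a2]
          exact Or.inl ⟨h5.symm, h5⟩
  have hs : FU' (k + 3) S = ((if lo (k + 1) = lo k + 1 ∧
        (puL lo hi (k + 3) ∨ (puR lo hi (k + 3) ∧ lo (k + 1) = hi (k + 1))) then {lo k} else ∅ :
          Finset ℕ) ∪
      (if hi (k + 1) = hi k ∧
        (puR lo hi (k + 3) ∨ (puL lo hi (k + 3) ∧ lo (k + 1) = hi (k + 1))) then {hi k} else ∅ :
          Finset ℕ)).image (x k) := by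
    ext w
    rw [mem_image]
    constructor
    · intro hw
      have hw' := mem_FU'.1 hw
      obtain ⟨hwS, z, hz, hu⟩ := hw'
      have hz2 := lev_PU hz
      have hl := lev_dc h.H (x := w) (v := z) (by rw [hu]; exact mem_singleton_self z)
      have hlw : lev w = k := by omega
      obtain ⟨a, a1, a2, rfl⟩ := C.surj k (by omega) w hlw ((hS w (by omega)).1 hwS)
      refine ⟨a, ?_, rfl⟩
      rw [mem_union]
      rcases (hmem a a1 a2).1 hw with ⟨h5, h6⟩ | ⟨h5, h6⟩
      · left
        rw [if_pos ⟨by omega, h6⟩, mem_singleton]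
        omega
      · right
        rw [if_pos ⟨by omega, h6⟩, mem_singleton]
        omega
    · rintro ⟨a, ha, rfl⟩
      rw [mem_union] at ha
      rcases ha with ha | ha
      · split_ifs at ha with hc
        · rw [mem_singleton] at ha
          exact (hmem a (by omega) (by omega)).2 (Or.inl ⟨by omega, hc.2⟩)
        · exact absurd ha (Finset.notMem_empty _)
      · split_ifs at ha with hc
        · rw [mem_singleton] at ha
          exact (hmem a (by omega) (by omega)).2 (Or.inr ⟨by omega, hc.2⟩)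
        · exact absurd ha (Finset.notMem_empty _)
  have hcard : ((if lo (k + 1) = lo k + 1 ∧
        (puL lo hi (k + 3) ∨ (puR lo hi (k + 3) ∧ lo (k + 1) = hi (k + 1))) then {lo k} else ∅ :
          Finset ℕ) ∪
      (if hi (k + 1) = hi k ∧
        (puR lo hi (k + 3) ∨ (puL lo hi (k + 3) ∧ lo (k + 1) = hi (k + 1))) then {hi k} else ∅ :
          Finset ℕ)).card = fuw lo hi (k + 3) := by
    have i1 : k + 3 - 2 = k + 1 := by omega
    have i2 : k + 3 - 3 = k := by omega
    rw [Finset.card_union_of_disjoint]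
    · unfold fuw
      rw [i1, i2]
      congr 1
      · split_ifs with h1 h2 h2
        · exact card_singleton _
        · exact absurd ⟨by omega, h1⟩ h2
        · exact absurd h2.2 h1
        · exact card_empty
      · split_ifs with h1 h2 h2
        · exact card_singleton _
        · exact absurd ⟨by omega, h1⟩ h2
        · exact absurd h2.2 h1
        · exact card_empty
    · rw [Finset.disjoint_left]
      intro a ha ha'
      split_ifs at ha ha'
      · rw [mem_singleton] at ha ha'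
        omega
      all_goals simp at ha ha'
  rw [hs, Finset.card_image_of_injOn, hcard]
  intro a ha a' ha' he
  have hrange : ∀ a ∈ ((if lo (k + 1) = lo k + 1 ∧
        (puL lo hi (k + 3) ∨ (puR lo hi (k + 3) ∧ lo (k + 1) = hi (k + 1))) then {lo k} else ∅ :
          Finset ℕ) ∪
      (if hi (k + 1) = hi k ∧
        (puR lo hi (k + 3) ∨ (puL lo hi (k + 3) ∧ lo (k + 1) = hi (k + 1))) then {hi k} else ∅ :
          Finset ℕ)), lo k ≤ a ∧ a ≤ hi k := by
    intro a ha
    rw [mem_union] at ha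
    rcases ha with ha | ha
    · split_ifs at ha with hc
      · rw [mem_singleton] at ha
        omega
      · exact absurd ha (Finset.notMem_empty _)
    · split_ifs at ha with hc
      · rw [mem_singleton] at ha
        omega
      · exact absurd ha (Finset.notMem_empty _)
  have g1 := hrange a (mem_coe.1 ha)
  have g2 := hrange a' (mem_coe.1 ha')
  exact C.inj' (by omega) g1.1 g1.2 g2.1 g2.2 he

/-- the number of sites -/
lemma Comp.card_st (C : Comp P t j lo hi x) (hk : i ≤ j)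
    (hS : ∀ y, lev y ≤ i → (y ∈ S ↔ y ≤ t)) : (st i S).card = hi i + 1 - lo i := by
  classical
  have hs : st i S = (Finset.Icc (lo i) (hi i)).image (x i) := by
    ext v
    rw [mem_st, mem_image]
    constructor
    · rintro ⟨h1, h2⟩
      obtain ⟨a, a1, a2, rfl⟩ := C.surj i hk v h2 ((hS v (by omega)).1 h1)
      exact ⟨a, Finset.mem_Icc.2 ⟨a1, a2⟩, rfl⟩
    · rintro ⟨a, ha, rfl⟩
      rw [Finset.mem_Icc] at ha
      have hl := C.lev_x i hk a ha.1 ha.2
      exact ⟨(hS _ (by omega)).2 (C.le_t i hk a ha.1 ha.2), hl⟩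
  rw [hs, Finset.card_image_of_injOn, Nat.card_Icc]
  intro a ha a' ha' he
  rw [mem_coe, Finset.mem_Icc] at ha ha'
  exact C.inj' hk ha.1 ha.2 ha'.1 ha'.2 he

end counts

end Pool.Agent.GaussPoset.Win
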