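import Pool.Agent.W_448al_h63.LJ

/-! The value of (3,1) in letters: the patterns are matched, final formula. -/

namespace Pool.Agent.GaussPoset.Win

set_option linter.unusedSectionVars false

open Finset

universe u

variable {P : Type u} [Fintype P] [PartialOrder P] [DecidableEq P] {r j i : ℕ}
variable {t : P} {lo hi : ℕ → ℕ} {x : ℕ → ℕ → P}

/-- the flipped pattern at a window with three sites -/
def Flip (lo hi : ℕ → ℕ) (i : ℕ) : Prop :=
  hi i = lo i + 2 ∧ ((puL lo hi i ∧ pdR lo hi i) ∨ (puR lo hi i ∧ pdL lo hi i))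

instance (lo hi : ℕ → ℕ) (i : ℕ) : Decidable (Flip lo hi i) := by unfold Flip; infer_instance

/-- the edge of the row `i` at the sites `a - 1`, `a` -/
lemma Comp.mtc_aux (C : Comp P t j lo hi x) (h : GoodTo P r j) (ht : lev t = 0) {k : ℕ}
    (hk : k + 4 ≤ j) {S : Finset P} (hS : ∀ y, lev y ≤ k + 4 → (y ∈ S ↔ y ≤ t)) {z w : P}
    (hz : z ∈ PD P (k + 2)) (hzt : z ≤ t) (hw : w ∈ PU P (k + 2)) (hwt : w ≤ t)
    (h1 : (PDt (k + 2) t).card = 1) (h2 : (PUt (k + 2) t).card = 1)
    {a : ℕ} (ha : lo (k + 2) < a) (ha' : a ≤ hi (k + 2))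
    (hzs : sts (k + 2) z = {x (k + 2) (a - 1), x (k + 2) a})
    (hws : stD (k + 2) w = {x (k + 2) (a - 1), x (k + 2) a}) : Mtc (k + 2) S := by
  classical
  have hg : ∀ l, l < j → Good P l := h.good
  -- the double below and the double above
  obtain ⟨y, hy, hy2⟩ := S5_uc_PD hz
  obtain ⟨hlz, hz1, -⟩ := mem_PD.1 hz
  obtain ⟨hlw, hw1, u, hu, hu2⟩ := mem_PU.1 hw
  have hdw : dc w = {u} := by
    obtain ⟨v, hv⟩ := Finset.card_eq_one.1 hw1
    have : u ∈ dc w := mem_dc.2 hu
    rw [hv, mem_singleton] at this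
    rw [hv, this]
  have e1 := ClE_sts h.H (i := k + 2) hlz hy
  have e2 := ClE_stD h.H (i := k + 2) hlw hdw
  have hlu := lev_dc h.H (x := w) (v := u) (mem_dc.2 hu)
  refine ⟨Or.inr ⟨z, w, y, u, (hS z (by omega)).2 hzt, (hS w (by omega)).2 hwt, hz, hw, hy, hdw,
    ?_, hy2, ?_, ?_, ?_⟩⟩
  · rw [← e2, ← e1, hws, hzs]
  · intro z' hz' hzP
    have h3 : z' ∈ PDt (k + 2) t :=
      mem_PDt.2 ⟨hzP, (hS z' (by have := (lev_PD hzP).1; omega)).1 hz'⟩
    have h4 : z ∈ PDt (k + 2) t := mem_PDt.2 ⟨hz, hzt⟩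
    exact Finset.card_le_one.1 h1.le _ h3 _ h4
  · intro x' hx' hxP
    have h3 : x' ∈ PUt (k + 2) t :=
      mem_PUt.2 ⟨hxP, (hS x' (by have := (lev_PU hxP).1; omega)).1 hx'⟩
    have h4 : w ∈ PUt (k + 2) t := mem_PUt.2 ⟨hw, hwt⟩
    exact Finset.card_le_one.1 h2.le _ h3 _ h4
  · intro w' hlw' hdc
    have hdu : dc u = uc y := by rw [← e2, ← e1, hws, hzs]
    rw [← e1, hzs] at hdc hdu
    -- `w'` is `x (k + 1) (a - 1)`
    have hlt : lev w' = k + 1 := by omega
    have hcov : x (k + 2) a ⋖ w' := by rw [← mem_dc, hdc]; simp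
    have hcov' : x (k + 2) (a - 1) ⋖ w' := by rw [← mem_dc, hdc]; simp
    have hcu : x (k + 2) a ⋖ u := by rw [← mem_dc, hdu]; simp
    have hcu' : x (k + 2) (a - 1) ⋖ u := by rw [← mem_dc, hdu]; simp
    obtain ⟨b, b1, b2, b3, rfl⟩ := (C.uc_iff h ht (k := k + 1) (by omega) (show lo (k + 2) ≤ a by omega) ha').1 hcov
    have g1 := (C.cov (k + 1) (by omega) (a - 1) b (show lo (k + 2) ≤ a - 1 by omega)
      (show a - 1 ≤ hi (k + 2) by omega) b1 b2).1 hcov'
    obtain ⟨c, c1, c2, c3, rfl⟩ := (C.uc_iff h ht (k := k + 1) (by omega) (show lo (k + 2) ≤ a by omega) ha').1 hcu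
    have g2 := (C.cov (k + 1) (by omega) (a - 1) c (show lo (k + 2) ≤ a - 1 by omega)
      (show a - 1 ≤ hi (k + 2) by omega) c1 c2).1 hcu'
    rw [show b = c by omega]

/-- THE PATTERNS ARE MATCHED, unless there is a flip at a window with three sites -/
theorem Comp.mtc (C : Comp P t j lo hi x) (h : GoodTo P r j) (ht : lev t = 0)
    (hi1 : 1 ≤ i) (hk : i + 2 ≤ j) {S : Finset P} (hS : ∀ y, lev y ≤ i + 2 → (y ∈ S ↔ y ≤ t))
    (hf : ¬ Flip lo hi i) : Mtc i S := by
  classical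
  have hind := indiv_21 h i (by omega) t ht
  by_cases h0 : (PUt i t).card = 0
  · have h1 : (PDt i t).card = 0 := by omega
    rw [card_eq_zero] at h0 h1
    refine ⟨Or.inl fun z hz => ⟨fun hz' => ?_, fun hz' => ?_⟩⟩
    · have h2 : z ∈ PDt i t := mem_PDt.2 ⟨hz', (hS z (by have := (lev_PD hz').1; omega)).1 hz⟩
      rw [h1] at h2
      exact absurd h2 (Finset.notMem_empty _)
    · have h2 : z ∈ PUt i t := mem_PUt.2 ⟨hz', (hS z (by have := (lev_PU hz').1; omega)).1 hz⟩
      rw [h0] at h2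
      exact absurd h2 (Finset.notMem_empty _)
  have hU : (PUt i t).card = 1 := by omega
  have hD : (PDt i t).card = 1 := by omega
  obtain ⟨w, hw⟩ := Finset.card_eq_one.1 hU
  obtain ⟨z, hz⟩ := Finset.card_eq_one.1 hD
  have hw1 : w ∈ PUt i t := by rw [hw]; exact mem_singleton_self w
  have hz1 : z ∈ PDt i t := by rw [hz]; exact mem_singleton_self z
  rw [mem_PUt] at hw1
  rw [mem_PDt] at hz1
  have hi2 : 2 ≤ i := by
    have := (mem_PU.1 hw1.1).1
    omega
  obtain ⟨k, rfl⟩ : ∃ k, i = k + 2 := ⟨i - 2, by omega⟩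
  obtain ⟨hlh, hPU⟩ := C.PU_cases h ht (m := k) (by omega) hw1.1 hw1.2
  obtain ⟨-, hPD⟩ := C.PD_cases h ht (m := k + 2) hk hz1.1 hz1.2
  have hS5 := (near_level' (i := k + 2) (h.mono (by omega)) (by omega)).2 t lo hi x ht
    (C.mono (by omega))
  have i1 : k + 2 - 1 = k + 1 := by omega
  have i2 : k + 2 - 2 = k := by omega
  -- the pendant sits below the double of its pair
  have hpen : ∀ a, lo (k + 2) < a → a ≤ hi (k + 2) →
      sts (k + 2) z = {x (k + 2) (a - 1), x (k + 2) a} →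
      (pen (x (k + 3) a)).card ≠ 0 := by
    intro a ha ha' hs h0
    rw [card_eq_zero] at h0
    obtain ⟨y, hy, hy2⟩ := S5_uc_PD hz1.1
    obtain ⟨hlz, hz11, -⟩ := mem_PD.1 hz1.1
    have e1 := ClE_sts h.H (i := k + 2) hlz hy
    rw [hs] at e1
    have hzy : z ⋖ y := by rw [← mem_uc, hy]; exact mem_singleton_self y
    have hly := lev_uc h.H (mem_uc.2 hzy)
    have hyt : y ≤ t := h.cov_le (by omega) ht hz1.2 hzy
    obtain ⟨b, b1, b2, rfl⟩ := C.surj (k + 3) (by omega) y (by omega) hyt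
    have hb2 := (C.uc_two h ht (k := k + 2) (by omega) b1 b2).1 hy2
    rw [C.uc_eq h ht (k := k + 2) (by omega) hb2.1 hb2.2] at e1
    have hab : a = b := by
      have g1 : x (k + 2) a ∈ ({x (k + 2) (b - 1), x (k + 2) b} : Finset P) := by
        rw [← e1]; simp
      have g2 : x (k + 2) b ∈ ({x (k + 2) (a - 1), x (k + 2) a} : Finset P) := by
        rw [e1]; simp
      rw [mem_insert, mem_singleton] at g1 g2
      rcases g1 with g1 | g1
      · have := C.inj' (k := k + 2) (by omega) (by omega) (by omega) (by omega) (by omega) g1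
        rcases g2 with g2 | g2
        · have := C.inj' (k := k + 2) (by omega) (by omega) (by omega) (by omega) (by omega) g2
          omega
        · exact (C.inj' (k := k + 2) (by omega) (by omega) (by omega) (by omega) (by omega)
            g2).symm
      · exact C.inj' (k := k + 2) (by omega) (by omega) (by omega) (by omega) (by omega) g1
    subst hab
    have : z ∈ pen (x (k + 3) a) := mem_pen.2 ⟨hzy, hz11⟩
    rw [h0] at this
    exact absurd this (Finset.notMem_empty _)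
  unfold Flip puL puR pdL pdR at hf
  unfold S5c LCO RCO at hS5
  rw [i1, i2] at hf hS5
  rcases hPU with ⟨u1, u2, -, u4⟩ | ⟨u1, u2, -, u4⟩
  · rcases hPD with ⟨d1, d2, -, d4⟩ | ⟨d1, d2, -, d4⟩
    · -- both left
      refine C.mtc_aux h ht (k := k) hk hS hz1.1 hz1.2 hw1.1 hw1.2 hD hU (a := lo (k + 2) + 1)
        (by omega) (by omega) ?_ ?_
      · rw [d4, Nat.add_sub_cancel]
      · rw [u4, Nat.add_sub_cancel]
    · -- above left, below right
      by_cases hb : hi (k + 2) = lo (k + 2) + 1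
      · refine C.mtc_aux h ht (k := k) hk hS hz1.1 hz1.2 hw1.1 hw1.2 hD hU (a := lo (k + 2) + 1)
          (by omega) (by omega) ?_ ?_
        · rw [d4, hb, Nat.add_sub_cancel]
        · rw [u4, Nat.add_sub_cancel]
      exfalso
      have hp := hpen (hi (k + 2)) (by omega) le_rfl d4
      rcases hS5 with ⟨h3, -, -⟩ | ⟨-, h3, b, hb1, hb2⟩ | ⟨-, h3, -⟩
      · exact h3 ⟨by omega, u1, u2, by omega⟩
      · have h4 := hb2 (hi (k + 2)) (by omega) le_rfl
        rw [h4] at hp
        have h5 : hi (k + 2) = b := by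
          by_contra hne
          rw [if_neg hne] at hp
          exact hp rfl
        apply hf
        refine ⟨by omega, Or.inl ⟨⟨by omega, u1, u2, by omega⟩, ?_⟩⟩
        exact ⟨d1, d2, by omega⟩
      · exact h3 ⟨by omega, u1, u2, by omega⟩
  · rcases hPD with ⟨d1, d2, -, d4⟩ | ⟨d1, d2, -, d4⟩
    · -- above right, below left
      by_cases hb : hi (k + 2) = lo (k + 2) + 1
      · refine C.mtc_aux h ht (k := k) hk hS hz1.1 hz1.2 hw1.1 hw1.2 hD hU (a := lo (k + 2) + 1)
          (by omega) (by omega) ?_ ?_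
        · rw [d4, Nat.add_sub_cancel]
        · rw [u4, hb, Nat.add_sub_cancel]
      exfalso
      have hp := hpen (lo (k + 2) + 1) (by omega) (by omega) (by rw [d4, Nat.add_sub_cancel])
      rcases hS5 with ⟨-, h3, -⟩ | ⟨-, h3, -⟩ | ⟨-, -, b, hb1, hb2⟩
      · exact h3 ⟨by omega, u1, u2, by omega⟩
      · exact h3 ⟨by omega, u1, u2, by omega⟩
      · have h4 := hb2 (lo (k + 2) + 1) (by omega) (by omega)
        rw [h4] at hp
        have h5 : lo (k + 2) + 1 = b := by
          by_contra hne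
          rw [if_neg hne] at hp
          exact hp rfl
        apply hf
        refine ⟨by omega, Or.inr ⟨⟨by omega, u1, u2, by omega⟩, ?_⟩⟩
        exact ⟨d1, d2, by omega⟩
    · -- both right
      refine C.mtc_aux h ht (k := k) hk hS hz1.1 hz1.2 hw1.1 hw1.2 hD hU (a := hi (k + 2))
        (by omega) le_rfl d4 u4

/-- THE VALUE OF (3,1) IN LETTERS -/
theorem Comp.al3 (C : Comp P t j lo hi x) (h : GoodTo P r j) (ht : lev t = 0)
    (hi1 : 1 ≤ i) (hk : i + 3 ≤ j) {S : Finset P} (hS : ∀ y, lev y ≤ i + 3 → (y ∈ S ↔ y ≤ t))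
    (hP : Part (i + 1) S) (hf : ¬ Flip lo hi i) :
    I2.al 3 (st i S).card (ZS i S) = (flw lo hi i : ℤ) - (fuw lo hi i : ℤ) := by
  have hr := h.hr
  have h1 := C.card_st (i := i) (S := S) (by omega) (fun y hy => hS y (by omega))
  have h2 := C.lohi i (by omega)
  rw [al3_val h.H hi1 (by omega) (fun m h3 h4 => h.good m (by omega)) hP (by omega)
    (C.mtc h ht hi1 (by omega) (fun y hy => hS y (by omega)) hf),
    C.card_ZL h ht (by omega) (fun y hy => hS y (by omega)),
    C.card_ZU h ht hi1 (by omega) (fun y hy => hS y (by omega)),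
    C.card_FL h ht hk hS, C.card_FU h ht (by omega) (fun y hy => hS y (by omega))]
  ring

end Pool.Agent.GaussPoset.Win
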